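import Mathlib

/-! Skew cores: doubling, skew-Hadamard matrices, doubly regular tournaments. -/

set_option autoImplicit false

namespace Pool.Agent.MP_d4e25a_co

open Matrix

/-- A skew core: `S` is skew-symmetric, `±1` off the diagonal and `S^2 = -(v - 1)`. -/
structure IsCore {I : Type} [Fintype I] [DecidableEq I] (S : Matrix I I ℤ) : Prop where
  skew : Sᵀ = -S
  offd : ∀ i j, i ≠ j → S i j = 1 ∨ S i j = -1
  sq : S * S = -(((Fintype.card I : ℤ) - 1) • (1 : Matrix I I ℤ))

theorem IsCore.diag {I : Type} [Fintype I] [DecidableEq I] {S : Matrix I I ℤ} (h : IsCore S) (i : I) :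
    S i i = 0 := by
  have := congrFun (congrFun h.skew i) i
  simp only [Matrix.transpose_apply, Matrix.neg_apply] at this
  omega

theorem IsCore.anti {I : Type} [Fintype I] [DecidableEq I] {S : Matrix I I ℤ} (h : IsCore S) (i j : I) :
    S j i = -S i j := by
  have := congrFun (congrFun h.skew i) j
  simpa only [Matrix.transpose_apply, Matrix.neg_apply] using this

theorem IsCore.reindex {I J : Type} [Fintype I] [DecidableEq I] [Fintype J] [DecidableEq J]
    {S : Matrix I I ℤ} (h : IsCore S) (e : J ≃ I) : IsCore (S.submatrix e e) := by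
  refine ⟨?_, ?_, ?_⟩
  · rw [Matrix.transpose_submatrix, h.skew]
    rfl
  · intro i j hij
    exact h.offd _ _ (fun h' => hij (e.injective h'))
  · rw [Matrix.submatrix_mul_equiv, h.sq, Fintype.card_congr e]
    ext i j
    simp only [Matrix.submatrix_apply, Matrix.neg_apply, Matrix.smul_apply, Matrix.one_apply,
      EmbeddingLike.apply_eq_iff_eq]

theorem IsCore.double {I : Type} [Fintype I] [DecidableEq I] {S : Matrix I I ℤ} (h : IsCore S) :
    IsCore (Matrix.fromBlocks S (S + 1) (S - 1) (-S)) := by
  refine ⟨?_, ?_, ?_⟩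
  · rw [Matrix.fromBlocks_transpose, Matrix.fromBlocks_neg, Matrix.transpose_add, Matrix.transpose_sub,
      Matrix.transpose_neg, h.skew, Matrix.transpose_one, neg_neg]
    congr 1
    · abel
    · abel
  · rintro (i | i) (j | j) hij
    · exact h.offd i j (fun h' => hij (by rw [h']))
    · simp only [Matrix.fromBlocks_apply₁₂, Matrix.add_apply]
      by_cases hh : i = j
      · subst hh; rw [h.diag, Matrix.one_apply_eq]; left; rfl
      · rw [Matrix.one_apply_ne hh, add_zero]; exact h.offd i j hh
    · simp only [Matrix.fromBlocks_apply₂₁, Matrix.sub_apply]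
      by_cases hh : i = j
      · subst hh; rw [h.diag, Matrix.one_apply_eq]; right; rfl
      · rw [Matrix.one_apply_ne hh, sub_zero]; exact h.offd i j hh
    · simp only [Matrix.fromBlocks_apply₂₂, Matrix.neg_apply]
      rcases h.offd i j (fun h' => hij (by rw [h'])) with h1 | h1 <;> rw [h1]
      · right; rfl
      · left; rfl
  · rw [Matrix.fromBlocks_multiply, Fintype.card_sum]
    have e1 : S * S + (S + 1) * (S - 1) = -(((Fintype.card I + Fintype.card I : ℕ) : ℤ) - 1) •
        (1 : Matrix I I ℤ) := by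
      have : S * S + (S + 1) * (S - 1) = S * S + S * S - 1 := by noncomm_ring
      rw [this, h.sq]
      push_cast
      module
    have e2 : S * (S + 1) + (S + 1) * -S = 0 := by noncomm_ring
    have e3 : (S - 1) * S + -S * (S - 1) = 0 := by noncomm_ring
    have e4 : (S - 1) * (S + 1) + -S * -S = -(((Fintype.card I + Fintype.card I : ℕ) : ℤ) - 1) •
        (1 : Matrix I I ℤ) := by
      have : (S - 1) * (S + 1) + -S * -S = S * S + S * S - 1 := by noncomm_ring
      rw [this, h.sq]
      push_cast
      module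
    rw [e1, e2, e3, e4, ← Matrix.fromBlocks_one, Matrix.fromBlocks_smul, Matrix.fromBlocks_neg]
    simp only [smul_zero, neg_zero, neg_smul]

/-- There is a skew core of order `v`. -/
def HasCore (v : ℕ) : Prop := ∃ S : Matrix (Fin v) (Fin v) ℤ, IsCore S

theorem hasCore_of {I : Type} [Fintype I] [DecidableEq I] {S : Matrix I I ℤ} (h : IsCore S) {v : ℕ}
    (hv : Fintype.card I = v) : HasCore v :=
  ⟨_, h.reindex ((Fintype.equivFinOfCardEq hv).symm)⟩

theorem HasCore.double {v : ℕ} (h : HasCore v) : HasCore (2 * v) := by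
  obtain ⟨S, hS⟩ := h
  exact hasCore_of hS.double (by rw [Fintype.card_sum, Fintype.card_fin]; ring)

theorem HasCore.pow {v : ℕ} (h : HasCore v) (k : ℕ) : HasCore (2 ^ k * v) := by
  induction k with
  | zero => simpa using h
  | succ k ih => rw [pow_succ, mul_comm (2 ^ k) 2, mul_assoc]; exact ih.double

/-- `H` is a skew-Hadamard matrix of order `v`. -/
def IsSkewHadamard {v : ℕ} (H : Matrix (Fin v) (Fin v) ℤ) : Prop :=
  (∀ i j, H i j = 1 ∨ H i j = -1) ∧ H * Hᵀ = (v : ℤ) • (1 : Matrix (Fin v) (Fin v) ℤ) ∧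
    H + Hᵀ = (2 : ℤ) • (1 : Matrix (Fin v) (Fin v) ℤ)

/-- The relation `R` is a doubly regular tournament. -/
def IsDoublyRegular {v : ℕ} (R : Fin v → Fin v → Prop) : Prop :=
  (∀ i, ¬ R i i) ∧ (∀ i j, i ≠ j → (R i j ↔ ¬ R j i)) ∧
    ∃ m : ℕ, ∀ i j, i ≠ j → {k : Fin v | R i k ∧ R j k}.ncard = m

theorem HasCore.skewHadamard {v : ℕ} (h : HasCore v) :
    ∃ H : Matrix (Fin v) (Fin v) ℤ, IsSkewHadamard H := by
  obtain ⟨S, hS⟩ := h
  refine ⟨1 + S, ?_, ?_, ?_⟩
  · intro i j
    rw [Matrix.add_apply]
    by_cases hij : i = j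
    · subst hij; rw [hS.diag, Matrix.one_apply_eq]; left; rfl
    · rw [Matrix.one_apply_ne hij, zero_add]; exact hS.offd i j hij
  · rw [Matrix.transpose_add, Matrix.transpose_one, hS.skew]
    have : (1 + S) * (1 + -S) = 1 - S * S := by noncomm_ring
    rw [this, hS.sq, Fintype.card_fin]
    module
  · rw [Matrix.transpose_add, Matrix.transpose_one, hS.skew]
    module

theorem HasCore.tournament {v : ℕ} (h : HasCore v) :
    ∃ R : Fin (v - 1) → Fin (v - 1) → Prop, IsDoublyRegular R := by
  obtain ⟨S, hS⟩ := h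
  rcases v with _ | k
  · exact ⟨fun _ _ => False, fun i => i.elim0, fun i => i.elim0, 0, fun i => i.elim0⟩
  rw [Nat.add_sub_cancel]
  have hST : ∀ i j, ∑ l, S i l * S j l = if i = j then (k : ℤ) else 0 := by
    intro i j
    have h0 : S * Sᵀ = (k : ℤ) • (1 : Matrix (Fin (k + 1)) (Fin (k + 1)) ℤ) := by
      rw [hS.skew, Matrix.mul_neg, hS.sq, Fintype.card_fin, neg_neg]
      congr 1
      push_cast
      ring
    have h1 := congrFun (congrFun h0 i) j
    rw [Matrix.mul_apply] at h1
    simp only [Matrix.transpose_apply, Matrix.smul_apply, Matrix.one_apply, smul_eq_mul] at h1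
    rw [h1]
    split_ifs <;> simp
  -- normalised core
  let d : Fin k → ℤ := fun i => S 0 i.succ
  have hd : ∀ i, d i = 1 ∨ d i = -1 := fun i => hS.offd _ _ (Fin.succ_ne_zero i).symm
  have hdd : ∀ i, d i * d i = 1 := by
    intro i; rcases hd i with h | h <;> rw [h] <;> rfl
  let Q : Fin k → Fin k → ℤ := fun i j => d i * S i.succ j.succ * d j
  have hQd : ∀ i, Q i i = 0 := by
    intro i
    simp only [Q, hS.diag, mul_zero, zero_mul]
  have hQ : ∀ i j, i ≠ j → Q i j = 1 ∨ Q i j = -1 := by
    intro i j hij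
    have h1 : i.succ ≠ j.succ := fun h => hij (Fin.succ_injective _ h)
    simp only [Q]
    rcases hd i with h2 | h2 <;> rcases hd j with h3 | h3 <;>
      rcases hS.offd _ _ h1 with h4 | h4 <;> rw [h2, h3, h4] <;> simp
  have hQa : ∀ i j, Q j i = -Q i j := by
    intro i j
    simp only [Q]
    rw [hS.anti i.succ j.succ]
    ring
  have hrow : ∀ i, ∑ l, Q i l = 0 := by
    intro i
    have h1 := hST i.succ 0
    rw [if_neg (Fin.succ_ne_zero i), Fin.sum_univ_succ, hS.diag, mul_zero, zero_add] at h1
    have h2 : ∑ l, Q i l = d i * ∑ l : Fin k, S i.succ l.succ * S 0 l.succ := by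
      rw [Finset.mul_sum]
      exact Finset.sum_congr rfl fun l _ => by simp only [Q, d]; ring
    rw [h2, h1, mul_zero]
  have hpair : ∀ i j, i ≠ j → ∑ l, Q i l * Q j l = -1 := by
    intro i j hij
    have hij' : i.succ ≠ j.succ := fun h => hij (Fin.succ_injective _ h)
    have h1 := hST i.succ j.succ
    rw [if_neg hij', Fin.sum_univ_succ, hS.anti 0 i.succ, hS.anti 0 j.succ] at h1
    have h2 : ∑ l, Q i l * Q j l = d i * d j * ∑ l : Fin k, S i.succ l.succ * S j.succ l.succ := by
      rw [Finset.mul_sum]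
      refine Finset.sum_congr rfl fun l _ => ?_
      calc Q i l * Q j l = d i * d j * (S i.succ l.succ * S j.succ l.succ) * (d l * d l) := by
            simp only [Q]; ring
        _ = _ := by rw [hdd, mul_one]
    have h3 : ∑ l : Fin k, S i.succ l.succ * S j.succ l.succ = -(d i * d j) := by
      simp only [d]
      linarith
    rw [h2, h3]
    calc d i * d j * -(d i * d j) = -((d i * d i) * (d j * d j)) := by ring
      _ = -1 := by rw [hdd, hdd]; rfl
  refine ⟨fun i j => Q i j = 1, ?_, ?_, (k - 3) / 4, ?_⟩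
  · intro i
    change ¬ Q i i = 1
    rw [hQd]
    norm_num
  · intro i j hij
    change Q i j = 1 ↔ ¬ Q j i = 1
    rw [hQa i j]
    rcases hQ i j hij with h1 | h1 <;> rw [h1] <;> norm_num
  · intro i j hij
    have hset : {l : Fin k | Q i l = 1 ∧ Q j l = 1}.ncard =
        (Finset.univ.filter fun l : Fin k => Q i l = 1 ∧ Q j l = 1).card := by
      rw [← Set.ncard_coe_finset]
      congr 1
      ext l
      simp
    rw [hset]
    set c := (Finset.univ.filter fun l : Fin k => Q i l = 1 ∧ Q j l = 1).card with hc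
    have h1 : ∑ l, (1 + Q i l) * (1 + Q j l) = (k : ℤ) - 1 := by
      have : ∀ l, (1 + Q i l) * (1 + Q j l) = 1 + Q i l + Q j l + Q i l * Q j l := fun l => by ring
      simp only [this, Finset.sum_add_distrib, hrow, hpair i j hij]
      simp
      ring
    have h2 : ∑ l, (1 + Q i l) * (1 + Q j l) = 4 * (c : ℤ) + 2 := by
      have h3 : ∀ l, (1 + Q i l) * (1 + Q j l) =
          4 * (if Q i l = 1 ∧ Q j l = 1 then 1 else 0) + (if l = i then 1 + Q j i else 0) +
            (if l = j then 1 + Q i j else 0) := by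
        intro l
        by_cases hli : l = i
        · subst hli
          rw [hQd, if_neg (by norm_num), if_pos rfl, if_neg hij]
          ring
        · by_cases hlj : l = j
          · subst hlj
            rw [hQd, if_neg (by norm_num), if_neg hli, if_pos rfl]
            ring
          · rw [if_neg hli, if_neg hlj]
            rcases hQ i l (Ne.symm hli) with h4 | h4 <;> rcases hQ j l (Ne.symm hlj) with h5 | h5 <;>
              rw [h4, h5] <;> norm_num
      rw [Finset.sum_congr rfl fun l _ => h3 l, Finset.sum_add_distrib, Finset.sum_add_distrib,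
        Finset.sum_ite_eq' Finset.univ i, Finset.sum_ite_eq' Finset.univ j, if_pos (Finset.mem_univ _),
        if_pos (Finset.mem_univ _), ← Finset.mul_sum, Finset.sum_boole, hQa i j]
      rw [hc]
      ring
    omega

end Pool.Agent.MP_d4e25a_co
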