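import Pool.Agent.Lib.MP_d4e25a_co.Sys
import Pool.Agent.Lib.MP_d4e25a_co.Core

/-! From a system of modes and commuting circulants to a skew core. -/

namespace Pool.Agent.MP_d4e25a_co

open Matrix Kronecker

set_option linter.unusedSectionVars false

/-- A family of commuting `(0, ±1)` matrices of order `2 m + 1` with `∑ X_a X_a^T = m`, such that
for `g ≠ h` exactly one of the entries `X_a g h`, `X_a h g` is not zero. -/
structure IsCirc {G ι : Type} [Fintype G] [DecidableEq G] [Fintype ι]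
    (X : ι → Matrix G G ℤ) (m : ℕ) : Prop where
  comm : ∀ a b, X a * X b = X b * X a
  commT : ∀ a b, X a * (X b)ᵀ = (X b)ᵀ * X a
  sum : ∑ a, X a * (X a)ᵀ = (m : ℤ) • (1 : Matrix G G ℤ)
  card : Fintype.card G = 2 * m + 1
  diag : ∀ a g, X a g g = 0
  offd : ∀ g h, g ≠ h → ∃ a, ((∀ b, b ≠ a → X b g h = 0 ∧ X b h g = 0) ∧
    (((X a g h = 1 ∨ X a g h = -1) ∧ X a h g = 0) ∨ ((X a h g = 1 ∨ X a h g = -1) ∧ X a g h = 0)))

variable {I G ι : Type} [Fintype I] [DecidableEq I] [Fintype G] [DecidableEq G] [Fintype ι]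
  [DecidableEq ι] {Z : Matrix I I ℤ} {u : ι → Matrix I I ℤ} {X : ι → Matrix G G ℤ} {m : ℕ}

/-- `x = ∑ u_a ⊗ X_a`. -/
noncomputable def xx (u : ι → Matrix I I ℤ) (X : ι → Matrix G G ℤ) : Matrix (I × G) (I × G) ℤ :=
  ∑ a, u a ⊗ₖ X a

theorem neg_kron (A : Matrix I I ℤ) (B : Matrix G G ℤ) : (-A) ⊗ₖ B = -(A ⊗ₖ B) := by
  ext i j
  simp only [Matrix.kroneckerMap_apply, Matrix.neg_apply, neg_mul]

theorem xx_transpose : (xx u X)ᵀ = ∑ a, (u a)ᵀ ⊗ₖ (X a)ᵀ := by
  unfold xx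
  rw [Matrix.transpose_sum]
  simp only [Matrix.kroneckerMap_transpose]

theorem xx_sq (hu : IsSys Z u) (hX : IsCirc X m) : xx u X * xx u X = 0 := by
  have h1 : xx u X * xx u X = ∑ a, ∑ b, (u a * u b) ⊗ₖ (X a * X b) := by
    unfold xx
    simp only [Finset.sum_mul, Finset.mul_sum, ← Matrix.mul_kronecker_mul]
    exact Finset.sum_comm
  have h2 : xx u X * xx u X = ∑ a, ∑ b, (u b * u a) ⊗ₖ (X a * X b) := by
    rw [h1, Finset.sum_comm]
    exact Finset.sum_congr rfl fun a _ => Finset.sum_congr rfl fun b _ => by rw [hX.comm b a]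
  have h3 : xx u X * xx u X + xx u X * xx u X = 0 := by
    nth_rewrite 1 [h1]
    rw [h2, ← Finset.sum_add_distrib]
    refine Finset.sum_eq_zero fun a _ => ?_
    rw [← Finset.sum_add_distrib]
    refine Finset.sum_eq_zero fun b _ => ?_
    rw [← Matrix.add_kronecker, hu.anti, Matrix.zero_kronecker]
  ext i j
  have := congrFun (congrFun h3 i) j
  simp only [Matrix.add_apply, Matrix.zero_apply] at this
  simp only [Matrix.zero_apply]
  omega

theorem xx_car (hu : IsSys Z u) (hX : IsCirc X m) :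
    xx u X * (xx u X)ᵀ + (xx u X)ᵀ * xx u X =
      (2 * (Fintype.card I : ℤ) * m) • (1 : Matrix (I × G) (I × G) ℤ) := by
  have h1 : xx u X * (xx u X)ᵀ = ∑ a, ∑ b, (u a * (u b)ᵀ) ⊗ₖ (X a * (X b)ᵀ) := by
    rw [xx_transpose]
    unfold xx
    simp only [Finset.sum_mul, Finset.mul_sum, ← Matrix.mul_kronecker_mul]
    exact Finset.sum_comm
  have h2 : (xx u X)ᵀ * xx u X = ∑ a, ∑ b, ((u b)ᵀ * u a) ⊗ₖ (X a * (X b)ᵀ) := by
    rw [xx_transpose]
    unfold xx
    simp only [Finset.sum_mul, Finset.mul_sum, ← Matrix.mul_kronecker_mul]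
    exact Finset.sum_congr rfl fun a _ => Finset.sum_congr rfl fun b _ => by rw [hX.commT a b]
  rw [h1, h2, ← Finset.sum_add_distrib]
  have h3 : ∀ a, (∑ b, (u a * (u b)ᵀ) ⊗ₖ (X a * (X b)ᵀ) + ∑ b, ((u b)ᵀ * u a) ⊗ₖ (X a * (X b)ᵀ)) =
      (2 * (Fintype.card I : ℤ)) • ((1 : Matrix I I ℤ) ⊗ₖ (X a * (X a)ᵀ)) := by
    intro a
    rw [← Finset.sum_add_distrib]
    simp only [← Matrix.add_kronecker, hu.car]
    rw [Finset.sum_eq_single a]
    · rw [if_pos rfl, Matrix.smul_kronecker]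
    · intro b _ hb
      rw [if_neg (Ne.symm hb), Matrix.zero_kronecker]
    · intro h; exact absurd (Finset.mem_univ a) h
  simp only [h3]
  rw [← Finset.smul_sum]
  have h4 : ∑ a, (1 : Matrix I I ℤ) ⊗ₖ (X a * (X a)ᵀ) = (m : ℤ) • (1 : Matrix (I × G) (I × G) ℤ) := by
    have : (1 : Matrix I I ℤ) ⊗ₖ (∑ a, X a * (X a)ᵀ) = ∑ a, (1 : Matrix I I ℤ) ⊗ₖ (X a * (X a)ᵀ) := by
      ext i j
      simp only [Matrix.kroneckerMap_apply, Matrix.sum_apply, Finset.mul_sum]
    rw [← this, hX.sum, Matrix.kronecker_smul, Matrix.one_kronecker_one]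
  rw [h4, smul_smul]

theorem xx_antiZ (hu : IsSys Z u) :
    (Z ⊗ₖ (1 : Matrix G G ℤ)) * xx u X + xx u X * (Z ⊗ₖ (1 : Matrix G G ℤ)) = 0 := by
  unfold xx
  simp only [Finset.sum_mul, Finset.mul_sum, ← Matrix.mul_kronecker_mul, one_mul, mul_one]
  rw [← Finset.sum_add_distrib]
  refine Finset.sum_eq_zero fun a _ => ?_
  rw [← Matrix.add_kronecker, add_comm, hu.antiZ, Matrix.zero_kronecker]

theorem core_of_sys (hu : IsSys Z u) (hX : IsCirc X m) :
    IsCore (Z ⊗ₖ (1 : Matrix G G ℤ) + (xx u X - (xx u X)ᵀ)) := by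
  have hZT : (Z ⊗ₖ (1 : Matrix G G ℤ))ᵀ = -(Z ⊗ₖ (1 : Matrix G G ℤ)) := by
    rw [← Matrix.kroneckerMap_transpose, hu.skew, Matrix.transpose_one, neg_kron]
  refine ⟨?_, ?_, ?_⟩
  · rw [Matrix.transpose_add, hZT, Matrix.transpose_sub, Matrix.transpose_transpose]
    abel
  · rintro ⟨i, g⟩ ⟨j, h⟩ hne
    simp only [Matrix.add_apply, Matrix.sub_apply, Matrix.transpose_apply, xx, Matrix.sum_apply,
      Matrix.kroneckerMap_apply]
    by_cases hgh : g = h
    · subst hgh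
      have hij : i ≠ j := fun h => hne (by rw [h])
      simp only [hX.diag, mul_zero, Finset.sum_const_zero, sub_zero, add_zero, Matrix.one_apply_eq,
        mul_one]
      exact hu.offd i j hij
    · obtain ⟨a, hb, ha⟩ := hX.offd g h hgh
      rw [Matrix.one_apply_ne hgh, mul_zero, zero_add]
      rw [Finset.sum_eq_single a (fun b _ hba => by rw [(hb b hba).1, mul_zero])
        (fun h => absurd (Finset.mem_univ a) h),
        Finset.sum_eq_single a (fun b _ hba => by rw [(hb b hba).2, mul_zero])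
        (fun h => absurd (Finset.mem_univ a) h)]
      rcases ha with ⟨h1, h2⟩ | ⟨h1, h2⟩
      · rw [h2, mul_zero, sub_zero]
        rcases h1 with h1 | h1 <;> rcases hu.full a i j with h3 | h3 <;> rw [h1, h3] <;> simp
      · rw [h2, mul_zero, zero_sub]
        rcases h1 with h1 | h1 <;> rcases hu.full a j i with h3 | h3 <;> rw [h1, h3] <;> simp
  · set Y := Z ⊗ₖ (1 : Matrix G G ℤ) with hY
    set x := xx u X with hx
    have e1 : x * x = 0 := xx_sq hu hX
    have e2 : x * xᵀ + xᵀ * x = (2 * (Fintype.card I : ℤ) * m) • (1 : Matrix (I × G) (I × G) ℤ) :=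
      xx_car hu hX
    have e3 : Y * x + x * Y = 0 := xx_antiZ hu
    have e4 : xᵀ * xᵀ = 0 := by rw [← Matrix.transpose_mul, e1, Matrix.transpose_zero]
    have e5 : Y * xᵀ + xᵀ * Y = 0 := by
      have := congrArg Matrix.transpose e3
      rw [Matrix.transpose_add, Matrix.transpose_mul, Matrix.transpose_mul, hZT,
        Matrix.transpose_zero] at this
      have h2 : Y * xᵀ + xᵀ * Y = -(xᵀ * -Y + -Y * xᵀ) := by
        rw [Matrix.mul_neg, Matrix.neg_mul]; abel
      rw [h2, this, neg_zero]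
    have e6 : Y * Y = -(((Fintype.card I : ℤ) - 1) • (1 : Matrix (I × G) (I × G) ℤ)) := by
      rw [hY, ← Matrix.mul_kronecker_mul, hu.sq, one_mul, neg_kron,
        Matrix.smul_kronecker, Matrix.one_kronecker_one]
    have e7 : (Y + (x - xᵀ)) * (Y + (x - xᵀ)) = Y * Y + (Y * x + x * Y) - (Y * xᵀ + xᵀ * Y) +
        x * x + xᵀ * xᵀ - (x * xᵀ + xᵀ * x) := by
      noncomm_ring
    rw [e7, e1, e2, e3, e4, e5, e6, Fintype.card_prod, hX.card]
    rw [← neg_smul, add_zero, sub_zero, add_zero, add_zero, ← sub_smul, ← neg_smul]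
    congr 1
    push_cast
    ring

end Pool.Agent.MP_d4e25a_co
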