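import Mathlib

set_option autoImplicit false

namespace Pool.Agent.MP_d4e25a_co

open Matrix

/-- A skew core `Z` together with full nilpotent modes `u a`, all anticommuting. -/
structure IsSys {I ι : Type} [Fintype I] [DecidableEq I] [DecidableEq ι]
    (Z : Matrix I I ℤ) (u : ι → Matrix I I ℤ) : Prop where
  skew : Zᵀ = -Z
  offd : ∀ i j, i ≠ j → Z i j = 1 ∨ Z i j = -1
  sq : Z * Z = -(((Fintype.card I : ℤ) - 1) • (1 : Matrix I I ℤ))
  full : ∀ a i j, u a i j = 1 ∨ u a i j = -1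
  anti : ∀ a b, u a * u b + u b * u a = 0
  car : ∀ a b, u a * (u b)ᵀ + (u b)ᵀ * u a =
    if a = b then (2 * (Fintype.card I : ℤ)) • (1 : Matrix I I ℤ) else 0
  antiZ : ∀ a, u a * Z + Z * u a = 0

end Pool.Agent.MP_d4e25a_co
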