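import Mathlib

set_option autoImplicit false

namespace Pool.Agent.Lib.MP_d4e25a_co

open Matrix

/-- sign matrix of order 16 from sixteen rows of bits; bit set means -1 -/
def sgnMat (r : Fin 16 → ℕ) : Matrix (Fin 16) (Fin 16) ℤ :=
  fun i j => if Nat.testBit (r i) j.val then -1 else 1

def rowsZ : Fin 16 → ℕ := ![0x9790, 0x8fed, 0x44d9, 0x39c1, 0xf5ea, 0xb40d, 0x6721, 0x8060,
  0x5ca4, 0x21bc, 0xea88, 0xf2f5, 0x26c6, 0xc187, 0x12ab, 0x534c]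
def rowsP : Fin 16 → ℕ := ![0x7f5c, 0xe1c4, 0x338f, 0xe6bd, 0xcb09, 0x2c88, 0xfec3, 0xaa6e,
  0xad17, 0x98dd, 0xb569, 0x2bf1, 0x0645, 0x4def, 0x605b, 0x87da]
def rowsC : Fin 16 → ℕ := ![0x0598, 0x3052, 0x9b00, 0x9c79, 0x372b, 0x7bf8, 0xd0aa, 0x02e1,
  0x5135, 0xb6b4, 0xe219, 0x282c, 0x837e, 0x4e32, 0xe560, 0x564c]
def rowsV : Fin 16 → ℕ := ![0x997a, 0x584d, 0xea1e, 0x85a0, 0xae12, 0xbd6e, 0x7624, 0x248f,
  0xcbd1, 0xc1ac, 0x8c00, 0xadcf, 0x009b, 0x37f3, 0x1c41, 0x103a]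

def Z0 : Matrix (Fin 16) (Fin 16) ℤ := fun i j => if i = j then 0 else sgnMat rowsZ i j
def P0 : Matrix (Fin 16) (Fin 16) ℤ := sgnMat rowsP
def C0 : Matrix (Fin 16) (Fin 16) ℤ := sgnMat rowsC
def V0 : Matrix (Fin 16) (Fin 16) ℤ := sgnMat rowsV

theorem sgnMat_full (r : Fin 16 → ℕ) (i j : Fin 16) : sgnMat r i j = 1 ∨ sgnMat r i j = -1 := by
  unfold sgnMat; split_ifs <;> simp

theorem Z0_skew : Z0ᵀ = -Z0 := by
  have h : ∀ i j : Fin 16, (Z0 j i : ℤ) = - Z0 i j := by decide +kernel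
  ext i j; simpa using h i j

theorem Z0_diag (i : Fin 16) : Z0 i i = 0 := by simp [Z0]

theorem Z0_off (i j : Fin 16) (h : i ≠ j) : Z0 i j = 1 ∨ Z0 i j = -1 := by
  simp only [Z0, if_neg h]; exact sgnMat_full _ _ _

theorem P0_symm : P0ᵀ = P0 := by
  have h : ∀ i j : Fin 16, (P0 j i - P0 i j : ℤ) = 0 := by decide +kernel
  ext i j; exact sub_eq_zero.mp (h i j)

theorem C0_symm : C0ᵀ = C0 := by
  have h : ∀ i j : Fin 16, (C0 j i - C0 i j : ℤ) = 0 := by decide +kernel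
  ext i j; exact sub_eq_zero.mp (h i j)

theorem Z0_sq : Z0 * Z0 = (-15 : ℤ) • (1 : Matrix (Fin 16) (Fin 16) ℤ) := by
  have h : ∀ i j : Fin 16, (∑ k, Z0 i k * Z0 k j : ℤ) = if i = j then -15 else 0 := by
    decide +kernel
  ext i j; rw [Matrix.mul_apply, h i j]; simp [Matrix.one_apply]

theorem P0_sq : P0 * P0 = (16 : ℤ) • (1 : Matrix (Fin 16) (Fin 16) ℤ) := by
  have h : ∀ i j : Fin 16, (∑ k, P0 i k * P0 k j : ℤ) = if i = j then 16 else 0 := by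
    decide +kernel
  ext i j; rw [Matrix.mul_apply, h i j]; simp [Matrix.one_apply]

theorem C0_sq : C0 * C0 = (16 : ℤ) • (1 : Matrix (Fin 16) (Fin 16) ℤ) := by
  have h : ∀ i j : Fin 16, (∑ k, C0 i k * C0 k j : ℤ) = if i = j then 16 else 0 := by
    decide +kernel
  ext i j; rw [Matrix.mul_apply, h i j]; simp [Matrix.one_apply]

theorem P0_Z0 : P0 * Z0 = -(Z0 * P0) := by
  have h : ∀ i j : Fin 16, (∑ k, P0 i k * Z0 k j : ℤ) = - ∑ k, Z0 i k * P0 k j := by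
    decide +kernel
  ext i j; rw [Matrix.mul_apply, Matrix.neg_apply, Matrix.mul_apply]; exact h i j

theorem C0_Z0 : C0 * Z0 = -(Z0 * C0) := by
  have h : ∀ i j : Fin 16, (∑ k, C0 i k * Z0 k j : ℤ) = - ∑ k, Z0 i k * C0 k j := by
    decide +kernel
  ext i j; rw [Matrix.mul_apply, Matrix.neg_apply, Matrix.mul_apply]; exact h i j

theorem V0_Z0 : V0 * Z0 = -(Z0 * V0) := by
  have h : ∀ i j : Fin 16, (∑ k, V0 i k * Z0 k j : ℤ) = - ∑ k, Z0 i k * V0 k j := by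
    decide +kernel
  ext i j; rw [Matrix.mul_apply, Matrix.neg_apply, Matrix.mul_apply]; exact h i j

theorem V0_C0 : V0 * C0 = -(C0 * V0) := by
  have h : ∀ i j : Fin 16, (∑ k, V0 i k * C0 k j : ℤ) = - ∑ k, C0 i k * V0 k j := by
    decide +kernel
  ext i j; rw [Matrix.mul_apply, Matrix.neg_apply, Matrix.mul_apply]; exact h i j

theorem V0_P0 : V0 * P0 = P0 * V0 := by
  have h : ∀ i j : Fin 16, (∑ k, V0 i k * P0 k j : ℤ) = ∑ k, P0 i k * V0 k j := by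
    decide +kernel
  ext i j; rw [Matrix.mul_apply, Matrix.mul_apply]; exact h i j

theorem C0_P0 : C0 * P0 = P0 * C0 := by
  have h : ∀ i j : Fin 16, (∑ k, C0 i k * P0 k j : ℤ) = ∑ k, P0 i k * C0 k j := by
    decide +kernel
  ext i j; rw [Matrix.mul_apply, Matrix.mul_apply]; exact h i j

theorem V0_sq : V0 * V0 = 0 := by
  have h : ∀ i j : Fin 16, (∑ k, V0 i k * V0 k j : ℤ) = 0 := by decide +kernel
  ext i j; rw [Matrix.mul_apply]; exact h i j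

theorem V0_adj : V0 * V0ᵀ + V0ᵀ * V0 = (32 : ℤ) • (1 : Matrix (Fin 16) (Fin 16) ℤ) := by
  have h : ∀ i j : Fin 16, (∑ k, V0 i k * V0 j k : ℤ) + (∑ k, V0 k i * V0 k j : ℤ)
      = if i = j then 32 else 0 := by decide +kernel
  ext i j
  rw [Matrix.add_apply, Matrix.mul_apply, Matrix.mul_apply]
  simp only [Matrix.transpose_apply]
  rw [h i j]; simp [Matrix.one_apply]

end Pool.Agent.Lib.MP_d4e25a_co
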