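import Mathlib
import Pool.Agent.Lib.MP_d4e25a_co.Seed

set_option autoImplicit false

namespace Pool.Agent.Lib.MP_d4e25a_co

open Matrix Kronecker

section kron

variable {m n : Type} [Fintype m] [DecidableEq m] [Fintype n] [DecidableEq n]

theorem neg_kron (A : Matrix m m ℤ) (B : Matrix n n ℤ) : (-A) ⊗ₖ B = -(A ⊗ₖ B) := by
  ext ⟨a, b⟩ ⟨c, d⟩; simp [kronecker_apply]

theorem kron_neg (A : Matrix m m ℤ) (B : Matrix n n ℤ) : A ⊗ₖ (-B) = -(A ⊗ₖ B) := by
  ext ⟨a, b⟩ ⟨c, d⟩; simp [kronecker_apply]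

theorem kron_T (A : Matrix m m ℤ) (B : Matrix n n ℤ) : (A ⊗ₖ B)ᵀ = Aᵀ ⊗ₖ Bᵀ := by
  ext ⟨a, b⟩ ⟨c, d⟩; simp [kronecker_apply]

theorem kron_mul (A B : Matrix m m ℤ) (A' B' : Matrix n n ℤ) :
    (A ⊗ₖ A') * (B ⊗ₖ B') = (A * B) ⊗ₖ (A' * B') := (mul_kronecker_mul A B A' B').symm

theorem smul_one_kron (a b : ℤ) :
    (a • (1 : Matrix m m ℤ)) ⊗ₖ (b • (1 : Matrix n n ℤ)) = (a * b) • (1 : Matrix (m × n) (m × n) ℤ) := by
  rw [smul_kronecker, kronecker_smul, one_kronecker_one, smul_smul]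

theorem kron_full {A : Matrix m m ℤ} {B : Matrix n n ℤ} (hA : ∀ i j, A i j = 1 ∨ A i j = -1)
    (hB : ∀ i j, B i j = 1 ∨ B i j = -1) (i j : m × n) :
    (A ⊗ₖ B) i j = 1 ∨ (A ⊗ₖ B) i j = -1 := by
  rw [kronecker_apply]
  rcases hA i.1 j.1 with h | h <;> rcases hB i.2 j.2 with h' | h' <;> simp [h, h']

theorem anti_comm_kron {A B : Matrix m m ℤ} {A' B' : Matrix n n ℤ} (h : A * B = -(B * A))
    (h' : A' * B' = B' * A') : (A ⊗ₖ A') * (B ⊗ₖ B') = -((B ⊗ₖ B') * (A ⊗ₖ A')) := by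
  rw [kron_mul, kron_mul, h, h', neg_kron]

theorem comm_anti_kron {A B : Matrix m m ℤ} {A' B' : Matrix n n ℤ} (h : A * B = B * A)
    (h' : A' * B' = -(B' * A')) : (A ⊗ₖ A') * (B ⊗ₖ B') = -((B ⊗ₖ B') * (A ⊗ₖ A')) := by
  rw [kron_mul, kron_mul, h, h', kron_neg]

end kron

/-- skew core Z of order s, a symmetric Hadamard matrix C and w full nilpotent modes u_k, all
anticommuting -/
structure Tower (ι : Type) [Fintype ι] [DecidableEq ι] (s : ℤ) (w : ℕ) where
  Z : Matrix ι ι ℤ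
  C : Matrix ι ι ℤ
  u : Fin w → Matrix ι ι ℤ
  Zt : Zᵀ = -Z
  Zd : ∀ i, Z i i = 0
  Zo : ∀ i j, i ≠ j → Z i j = 1 ∨ Z i j = -1
  Zs : Z * Z = (1 - s) • (1 : Matrix ι ι ℤ)
  Ct : Cᵀ = C
  Cf : ∀ i j, C i j = 1 ∨ C i j = -1
  Cs : C * C = s • (1 : Matrix ι ι ℤ)
  CZ : C * Z = -(Z * C)
  uf : ∀ k i j, u k i j = 1 ∨ u k i j = -1
  uZ : ∀ k, u k * Z = -(Z * u k)
  uC : ∀ k, u k * C = -(C * u k)
  uu : ∀ k l, u k * u l = -(u l * u k)
  uut : ∀ k l, u k * (u l)ᵀ + (u l)ᵀ * u k = if k = l then (2 * s) • (1 : Matrix ι ι ℤ) else 0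

/-- the trivial tower of order one -/
def Tower.base : Tower Unit 1 0 where
  Z := 0
  C := 1
  u := fun k => k.elim0
  Zt := by simp
  Zd := by simp
  Zo := by intro i j h; exact absurd (Subsingleton.elim i j) h
  Zs := by simp
  Ct := by simp
  Cf := by intro i j; left; simp [Matrix.one_apply]
  Cs := by simp
  CZ := by simp
  uf := fun k => k.elim0
  uZ := fun k => k.elim0
  uC := fun k => k.elim0
  uu := fun k => k.elim0
  uut := fun k => k.elim0

theorem V0T_P0 : V0ᵀ * P0 = P0 * V0ᵀ := by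
  have h := congrArg Matrix.transpose V0_P0
  rw [transpose_mul, transpose_mul, P0_symm] at h
  exact h.symm

section step

variable {ι : Type} [Fintype ι] [DecidableEq ι] {s : ℤ} {w : ℕ}

/-- the new modes -/
def stepU (T : Tower ι s w) : Fin (w + 1) → Matrix (ι × Fin 16) (ι × Fin 16) ℤ :=
  Fin.cons (T.C ⊗ₖ V0) (fun k => T.u k ⊗ₖ P0)

theorem uTC (T : Tower ι s w) (k : Fin w) : T.C * (T.u k)ᵀ = -((T.u k)ᵀ * T.C) := by
  have h := congrArg Matrix.transpose (T.uC k)
  rw [transpose_neg, transpose_mul, transpose_mul, T.Ct] at h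
  exact h

/-- tensoring with the seed adds one mode -/
def Tower.step (T : Tower ι s w) : Tower (ι × Fin 16) (s * 16) (w + 1) where
  Z := T.Z ⊗ₖ P0 + (1 : Matrix ι ι ℤ) ⊗ₖ Z0
  C := T.C ⊗ₖ C0
  u := stepU T
  Zt := by
    rw [transpose_add, kron_T, kron_T, T.Zt, P0_symm, Z0_skew, transpose_one, neg_kron, kron_neg]
    abel
  Zd := by
    rintro ⟨i, a⟩
    simp [Matrix.add_apply, kronecker_apply, T.Zd, Z0_diag]
  Zo := by
    rintro ⟨i, a⟩ ⟨j, b⟩ h
    by_cases hij : i = j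
    · subst hij
      have hab : a ≠ b := fun h' => h (by rw [h'])
      simpa [Matrix.add_apply, kronecker_apply, T.Zd] using Z0_off a b hab
    · rcases T.Zo i j hij with h1 | h1 <;> rcases sgnMat_full rowsP a b with h2 | h2 <;>
        simp [Matrix.add_apply, kronecker_apply, h1, Matrix.one_apply, hij, P0, h2]
  Zs := by
    rw [add_mul, mul_add, mul_add, kron_mul, kron_mul, kron_mul, kron_mul, T.Zs, P0_sq, Z0_sq,
      P0_Z0, mul_one, one_mul, mul_one, kron_neg, smul_one_kron, kronecker_smul,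
      one_kronecker_one]
    have : ((1 - s) * 16) • (1 : Matrix (ι × Fin 16) (ι × Fin 16) ℤ)
        + (-15 : ℤ) • (1 : Matrix (ι × Fin 16) (ι × Fin 16) ℤ)
        = (1 - s * 16) • (1 : Matrix (ι × Fin 16) (ι × Fin 16) ℤ) := by
      rw [← add_smul]; congr 1; ring
    rw [← this]; abel
  Ct := by rw [kron_T, T.Ct, C0_symm]
  Cf := kron_full T.Cf (sgnMat_full _)
  Cs := by rw [kron_mul, T.Cs, C0_sq, smul_one_kron]
  CZ := by
    rw [mul_add, add_mul, neg_add, anti_comm_kron T.CZ C0_P0,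
      comm_anti_kron (A := T.C) (B := 1) (by rw [mul_one, one_mul]) C0_Z0]
  uf := by
    intro k
    refine Fin.cases ?_ (fun k => ?_) k
    · exact kron_full T.Cf (sgnMat_full _)
    · exact kron_full (T.uf k) (sgnMat_full _)
  uZ := by
    intro k
    refine Fin.cases ?_ (fun k => ?_) k
    · simp only [stepU, Fin.cons_zero]
      rw [mul_add, add_mul, neg_add, anti_comm_kron T.CZ V0_P0,
        comm_anti_kron (A := T.C) (B := 1) (by rw [mul_one, one_mul]) V0_Z0]
    · simp only [stepU, Fin.cons_succ]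
      rw [mul_add, add_mul, neg_add, anti_comm_kron (T.uZ k) rfl,
        comm_anti_kron (A := T.u k) (B := 1) (by rw [mul_one, one_mul]) P0_Z0]
  uC := by
    intro k
    refine Fin.cases ?_ (fun k => ?_) k
    · simp only [stepU, Fin.cons_zero]
      exact comm_anti_kron rfl V0_C0
    · simp only [stepU, Fin.cons_succ]
      exact anti_comm_kron (T.uC k) C0_P0.symm
  uu := by
    intro k l
    refine Fin.cases ?_ (fun k => ?_) k <;> refine Fin.cases ?_ (fun l => ?_) l
    · simp only [stepU, Fin.cons_zero]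
      rw [kron_mul, V0_sq, kronecker_zero, neg_zero]
    · simp only [stepU, Fin.cons_zero, Fin.cons_succ]
      exact anti_comm_kron (by rw [T.uC l, neg_neg]) V0_P0
    · simp only [stepU, Fin.cons_zero, Fin.cons_succ]
      exact anti_comm_kron (T.uC k) V0_P0.symm
    · simp only [stepU, Fin.cons_succ]
      exact anti_comm_kron (T.uu k l) rfl
  uut := by
    intro k l
    refine Fin.cases ?_ (fun k => ?_) k <;> refine Fin.cases ?_ (fun l => ?_) l
    · simp only [stepU, Fin.cons_zero, if_true]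
      rw [kron_T, T.Ct, kron_mul, kron_mul, ← kronecker_add, V0_adj, T.Cs, smul_one_kron]
      congr 1; ring
    · simp only [stepU, Fin.cons_zero, Fin.cons_succ]
      rw [if_neg (Fin.succ_ne_zero l).symm, kron_T, P0_symm, kron_mul, kron_mul, uTC, V0_P0,
        neg_kron, neg_add_cancel]
    · simp only [stepU, Fin.cons_zero, Fin.cons_succ]
      rw [if_neg (Fin.succ_ne_zero k), kron_T, T.Ct, kron_mul, kron_mul, T.uC, V0T_P0,
        neg_kron, neg_add_cancel]
    · simp only [stepU, Fin.cons_succ]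
      rw [kron_T, P0_symm, kron_mul, kron_mul, ← add_kronecker, T.uut, P0_sq]
      by_cases h : k = l
      · subst h
        rw [if_pos rfl, if_pos rfl, smul_one_kron]
        congr 1; ring
      · rw [if_neg h, if_neg (fun h' => h (Fin.succ_injective _ h')), zero_kronecker]

end step

/-- for every w there is an index type of card 16^w carrying w modes -/
theorem exists_tower (w : ℕ) : ∃ (ι : Type) (_ : Fintype ι) (_ : DecidableEq ι),
    Fintype.card ι = 16 ^ w ∧ Nonempty (Tower ι ((16 : ℤ) ^ w) w) := by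
  induction w with
  | zero => exact ⟨Unit, inferInstance, inferInstance, by simp, ⟨by simpa using Tower.base⟩⟩
  | succ w ih =>
    obtain ⟨ι, hF, hD, hc, ⟨T⟩⟩ := ih
    refine ⟨ι × Fin 16, inferInstance, inferInstance, ?_, ⟨?_⟩⟩
    · rw [Fintype.card_prod, hc, Fintype.card_fin, pow_succ]
    · have := T.step
      rw [← pow_succ] at this
      exact this

end Pool.Agent.Lib.MP_d4e25a_co
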