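import Mathlib
import Pool.Agent.Lib.MP_d4e25a_co.Sys
import Pool.Agent.Lib.MP_d4e25a_co.Tower

set_option autoImplicit false

namespace Pool.Agent.MP_d4e25a_co

open Matrix Pool.Agent.Lib.MP_d4e25a_co

/-- for every r there is a skew core of order 16^r with r full modes -/
theorem exists_sys (r : ℕ) : ∃ (I : Type) (_ : Fintype I) (_ : DecidableEq I)
    (Z : Matrix I I ℤ) (u : Fin r → Matrix I I ℤ), Fintype.card I = 16 ^ r ∧ IsSys Z u := by
  obtain ⟨I, hF, hD, hc, ⟨T⟩⟩ := exists_tower r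
  have hc' : (Fintype.card I : ℤ) = (16 : ℤ) ^ r := by rw [hc]; push_cast; rfl
  refine ⟨I, hF, hD, T.Z, T.u, hc, ⟨T.Zt, T.Zo, ?_, T.uf, ?_, ?_, ?_⟩⟩
  · rw [T.Zs, hc', ← neg_smul, neg_sub]
  · intro a b; rw [T.uu a b, neg_add_cancel]
  · intro a b; rw [T.uut a b, hc']
  · intro a; rw [T.uZ a, neg_add_cancel]

end Pool.Agent.MP_d4e25a_co
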