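import Pool.Agent.Lib.MP_d4e25a_co.Golay
import Pool.Agent.Lib.MP_d4e25a_co.Rec

/-! Existence of skew cores of order `2^t n`. -/

set_option autoImplicit false

namespace Pool.Agent.MP_d4e25a_co

open Matrix Polynomial

/-- There is a family with `r` members which covers `m`. -/
def HasFam (r m : ℕ) : Prop := ∃ (ι : Type) (_ : Fintype ι) (_ : DecidableEq ι) (p : ι → ℤ[X]),
  Fintype.card ι = r ∧ IsTFam p m

theorem HasFam.add {r m L : ℕ} (h : HasFam r m) {A B : ℤ[X]} (hG : IsG A B L) :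
    HasFam (r + 2) (m + L) := by
  obtain ⟨ι, h1, h2, p, h3, h4⟩ := h
  exact ⟨ι ⊕ Bool, inferInstance, inferInstance, _, by rw [Fintype.card_sum, h3, Fintype.card_bool],
    h4.add hG⟩

theorem IsTFam.one {ι : Type} [Fintype ι] {p : ι → ℤ[X]} {m : ℕ} (h : IsTFam p m) :
    IsTFam (fun a : ι ⊕ Unit => Sum.elim p (fun _ => X ^ m) a) (m + 1) := by
  refine ⟨?_, ?_, ?_⟩
  · intro i hi
    by_cases him : i < m
    · obtain ⟨a, h1, h2⟩ := h.cover i him
      refine ⟨Sum.inl a, by simpa using h1, ?_⟩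
      rintro (b | b) hb
      · simpa using h2 b (fun h => hb (by rw [h]))
      · simp only [Sum.elim_inr]
        rw [coeff_X_pow, if_neg (by omega)]
    · refine ⟨Sum.inr (), ?_, ?_⟩
      · simp only [Sum.elim_inr]
        rw [coeff_X_pow, if_pos (by omega)]
        left; rfl
      · rintro (b | b) hb
        · simpa using h.zero i (by omega) b
        · exact absurd rfl hb
  · rintro i hi (a | a)
    · simpa using h.zero i (by omega) a
    · simp only [Sum.elim_inr]
      rw [coeff_X_pow, if_neg (by omega)]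
  · intro R _ T T' hT hT'
    rw [Fintype.sum_sum_type]
    simp only [Sum.elim_inl, Sum.elim_inr, Finset.univ_unique, Finset.sum_singleton]
    have h1 := shift_mul hT hT' m 1
    simp only [mul_one, map_one] at h1
    rw [h.sum R T T' hT hT', h1]
    push_cast
    rfl

theorem HasFam.one {r m : ℕ} (h : HasFam r m) : HasFam (r + 1) (m + 1) := by
  obtain ⟨ι, h1, h2, p, h3, h4⟩ := h
  exact ⟨ι ⊕ Unit, inferInstance, inferInstance, _, by rw [Fintype.card_sum, h3, Fintype.card_unit],
    h4.one⟩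

theorem hasFam_zero : HasFam 0 0 := ⟨Empty, inferInstance, inferInstance, _, rfl, isTFam_empty⟩

/-- The sum of the binary digits. -/
def bs (N : ℕ) : ℕ := (Nat.digits 2 N).sum

theorem bs_zero : bs 0 = 0 := by simp [bs]

theorem bs_succ {N : ℕ} (hN : 0 < N) : bs N = N % 2 + bs (N / 2) := by
  unfold bs
  rw [Nat.digits_def' (by norm_num) hN, List.sum_cons]

theorem hasFam_pow (N : ℕ) : ∀ e, HasFam (2 * bs N) (N * 2 ^ e) := by
  induction N using Nat.strong_induction_on with
  | _ N ih =>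
    intro e
    rcases Nat.eq_zero_or_pos N with rfl | hN
    · rw [bs_zero, mul_zero, zero_mul]; exact hasFam_zero
    · have h1 := ih (N / 2) (by omega) (e + 1)
      rw [bs_succ hN]
      rcases Nat.mod_two_eq_zero_or_one N with h2 | h2
      · rw [h2, zero_add]
        have h3 : N * 2 ^ e = N / 2 * 2 ^ (e + 1) := by
          rw [pow_succ, mul_comm (2 ^ e) 2, ← mul_assoc, Nat.div_mul_cancel (Nat.dvd_of_mod_eq_zero h2)]
        rw [h3]; exact h1
      · obtain ⟨A, B, hG⟩ := exists_isG e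
        have h3 : N * 2 ^ e = N / 2 * 2 ^ (e + 1) + 2 ^ e := by
          have h4 : N = 2 * (N / 2) + 1 := by omega
          conv_lhs => rw [h4]
          ring
        rw [h2, h3, mul_add, add_comm]
        exact h1.add hG

/-- The number of modes used for `N`. -/
def modes (N : ℕ) : ℕ := 2 * bs N - N % 2

theorem hasFam_modes (N : ℕ) : HasFam (modes N) N := by
  rcases Nat.eq_zero_or_pos N with rfl | hN
  · simp only [modes, bs_zero]; exact hasFam_zero
  rcases Nat.mod_two_eq_zero_or_one N with h2 | h2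
  · have := hasFam_pow N 0
    rw [pow_zero, mul_one] at this
    rwa [modes, h2, Nat.sub_zero]
  · have h1 := (hasFam_pow (N / 2) 1).one
    have h3 : modes N = 2 * bs (N / 2) + 1 := by
      rw [modes, bs_succ hN, h2]; omega
    have h4 : N / 2 * 2 ^ 1 + 1 = N := by omega
    rwa [← h3, h4] at h1

theorem IsSys.reindex {I ι κ : Type} [Fintype I] [DecidableEq I] [DecidableEq ι] [DecidableEq κ]
    {Z : Matrix I I ℤ} {u : ι → Matrix I I ℤ} (h : IsSys Z u) (e : κ ≃ ι) : IsSys Z (fun a => u (e a)) := by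
  refine ⟨h.skew, h.offd, h.sq, fun a => h.full _, fun a b => h.anti _ _, ?_, fun a => h.antiZ _⟩
  intro a b
  rw [h.car]
  simp only [EmbeddingLike.apply_eq_iff_eq]

theorem hasCore_of_fam {r m : ℕ} (h : HasFam r m) : HasCore (16 ^ r * (2 * m + 1)) := by
  obtain ⟨ι, h1, h2, p, h3, h4⟩ := h
  obtain ⟨I, i1, i2, Z, u, hI, hS⟩ := exists_sys r
  have hS' := hS.reindex (Fintype.equivFinOfCardEq h3)
  exact hasCore_of (core_of_sys hS' h4.circ) (by rw [Fintype.card_prod, hI, ZMod.card])

/-- The exponent for `2 N + 1`. -/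
theorem hasCore_main (N t : ℕ) (ht : 4 * modes N ≤ t) : HasCore (2 ^ t * (2 * N + 1)) := by
  have h1 := (hasCore_of_fam (hasFam_modes N)).pow (t - 4 * modes N)
  have h2 : 2 ^ (t - 4 * modes N) * (16 ^ modes N * (2 * N + 1)) = 2 ^ t * (2 * N + 1) := by
    rw [show (16 : ℕ) = 2 ^ 4 by norm_num, ← pow_mul, ← mul_assoc, ← pow_add, Nat.sub_add_cancel ht]
  rwa [h2] at h1

theorem bs_le (N : ℕ) : bs N ≤ Nat.log 2 (2 * N + 1) := by
  induction N using Nat.strong_induction_on with
  | _ N ih =>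
    rcases Nat.eq_zero_or_pos N with rfl | hN
    · rw [bs_zero]; exact Nat.zero_le _
    · rw [bs_succ hN]
      have h1 := ih (N / 2) (by omega)
      rcases Nat.mod_two_eq_zero_or_one N with h4 | h4
      · have h8 : Nat.log 2 (2 * (N / 2) + 1) ≤ Nat.log 2 (2 * N + 1) := Nat.log_mono_right (by omega)
        omega
      · have h2 : Nat.log 2 (2 * N + 1) = Nat.log 2 ((2 * N + 1) / 2) + 1 :=
          Nat.log_of_one_lt_of_le (by norm_num) (by omega)
        have h6 : (2 * N + 1) / 2 = 2 * (N / 2) + 1 := by omega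
        rw [h2, h6, h4]
        omega

/-- Every positive integer is a power of two times an odd number. -/
theorem hasCore_log (m t : ℕ) (hm : 0 < m) (ht : 8 * Nat.log 2 m ≤ t) : HasCore (2 ^ t * m) := by
  obtain ⟨a, n, hn, rfl⟩ : ∃ a n : ℕ, n % 2 = 1 ∧ m = 2 ^ a * n := by
    obtain ⟨a, n, h1, h2⟩ := Nat.exists_eq_two_pow_mul_odd hm.ne'
    exact ⟨a, n, Nat.odd_iff.1 h1, h2⟩
  obtain ⟨N, rfl⟩ : ∃ N, n = 2 * N + 1 := ⟨n / 2, by omega⟩
  have h1 : Nat.log 2 (2 * N + 1) ≤ Nat.log 2 (2 ^ a * (2 * N + 1)) :=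
    Nat.log_mono_right (Nat.le_mul_of_pos_left _ (by positivity))
  have h2 := bs_le N
  rw [← mul_assoc, ← pow_add]
  exact hasCore_main N (t + a) (by unfold modes; omega)

end Pool.Agent.MP_d4e25a_co
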