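import Pool.Agent.Lib.MP_d4e25a_co.Ten

/-! Every number is a sum of few Golay numbers `2 ^ a * 10 ^ b`. -/

set_option autoImplicit false

namespace Pool.Agent.MP_d4e25a_co

/-- there is a family with at most `k` members which covers `N` -/
def Fam (k N : ℕ) : Prop := ∃ r ≤ k, HasFam r N

theorem Fam.mono {k k' N : ℕ} (h : Fam k N) (hk : k ≤ k') : Fam k' N := by
  obtain ⟨r, h1, h2⟩ := h
  exact ⟨r, h1.trans hk, h2⟩

theorem fam_zero (k : ℕ) : Fam k 0 := ⟨0, Nat.zero_le _, hasFam_zero⟩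

theorem Fam.golay {k N : ℕ} (h : Fam k N) (a b : ℕ) : Fam (k + 2) (2 ^ a * 10 ^ b + N) := by
  obtain ⟨r, h1, h2⟩ := h
  obtain ⟨A, B, hG⟩ := exists_isG_ten a b
  exact ⟨r + 2, by omega, by rw [add_comm (2 ^ a * 10 ^ b)]; exact h2.add hG⟩

/-- a term `2 ^ i * 5 ^ b` at the position `p ≥ b` -/
theorem Fam.term {k p y : ℕ} (h : Fam k (2 ^ p * y)) (i b : ℕ) (hb : b ≤ p) :
    Fam (k + 2) (2 ^ p * (2 ^ i * 5 ^ b + y)) := by
  have e : 2 ^ p * (2 ^ i * 5 ^ b + y) = 2 ^ (p - b + i) * 10 ^ b + 2 ^ p * y := by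
    obtain ⟨c, rfl⟩ := Nat.exists_eq_add_of_le hb
    rw [show (10 : ℕ) = 2 * 5 from rfl, mul_pow, Nat.add_sub_cancel_left]
    ring
  rw [e]
  exact h.golay _ _

theorem Fam.bit {k p x : ℕ} (h : Fam k (2 ^ (p + 1) * (x / 2))) : Fam (k + 2) (2 ^ p * x) := by
  have e1 : 2 ^ p * (2 * (x / 2)) = 2 ^ (p + 1) * (x / 2) := by ring
  have h' : Fam k (2 ^ p * (2 * (x / 2))) := by rwa [e1]
  rcases Nat.mod_two_eq_zero_or_one x with h0 | h0
  · have e : 2 * (x / 2) = x := by omega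
    rw [e] at h'
    exact h'.mono (by omega)
  · have h2 := h'.term 0 0 (Nat.zero_le _)
    have e : 2 ^ 0 * 5 ^ 0 + 2 * (x / 2) = x := by
      rw [pow_zero, pow_zero]
      omega
    rwa [e] at h2

theorem fam_bits (j : ℕ) : ∀ p x, x < 2 ^ j → Fam (2 * j) (2 ^ p * x) := by
  induction j with
  | zero =>
    intro p x hx
    have : x = 0 := by simpa using hx
    rw [this, mul_zero]
    exact fam_zero _
  | succ j ih =>
    intro p x hx
    rw [mul_add, mul_one]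
    apply Fam.bit
    apply ih
    rw [pow_succ] at hx
    omega

theorem Fam.low (j : ℕ) : ∀ {k p x : ℕ}, Fam k (2 ^ (p + j) * (x / 2 ^ j)) → Fam (k + 2 * j) (2 ^ p * x) := by
  induction j with
  | zero =>
    intro k p x h
    simpa using h
  | succ j ih =>
    intro k p x h
    have h1 : Fam k (2 ^ (p + 1 + j) * (x / 2 / 2 ^ j)) := by
      rw [Nat.div_div_eq_div_mul, ← pow_succ', add_assoc, add_comm 1 j]
      exact h
    have h2 := (ih h1).bit
    rw [mul_add, mul_one, ← add_assoc]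
    exact h2

theorem five_pow (l : ℕ) : ∃ c, 5 ^ 2 ^ l = 1 + 2 ^ (l + 2) * (2 * c + 1) := by
  induction l with
  | zero => exact ⟨0, rfl⟩
  | succ l ih =>
    obtain ⟨c, hc⟩ := ih
    refine ⟨c + 2 ^ l * (2 * c + 1) ^ 2, ?_⟩
    rw [pow_succ, pow_mul, hc]
    ring

theorem exists_five (l : ℕ) : ∀ x, x % 4 = 1 → ∃ b < 2 ^ l, 5 ^ b % 2 ^ (l + 2) = x % 2 ^ (l + 2) := by
  induction l with
  | zero =>
    intro x hx
    exact ⟨0, by norm_num, by simpa using hx.symm⟩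
  | succ l ih =>
    intro x hx
    obtain ⟨b, hb, h⟩ := ih x hx
    have hM : 2 ^ (l + 1 + 2) = 2 ^ (l + 2) * 2 := by ring
    rw [hM]
    set M := 2 ^ (l + 2) with hMdef
    have hMpos : 0 < M := by positivity
    by_cases hpar : 5 ^ b / M % 2 = x / M % 2
    · refine ⟨b, by rw [pow_succ]; omega, ?_⟩
      rw [Nat.mod_mul, Nat.mod_mul, h, hpar]
    · obtain ⟨c, hc⟩ := five_pow l
      refine ⟨b + 2 ^ l, by rw [pow_succ]; omega, ?_⟩
      have e : 5 ^ (b + 2 ^ l) = 5 ^ b + M * ((2 * c + 1) * 5 ^ b) := by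
        rw [pow_add, hc, ← hMdef]
        ring
      have ho : (2 * c + 1) * 5 ^ b % 2 = 1 := by
        rw [Nat.mul_mod, Nat.pow_mod]
        norm_num
      rw [e, Nat.mod_mul, Nat.mod_mul, Nat.add_mul_mod_self_left, h, Nat.add_mul_div_left _ _ hMpos]
      congr 2
      omega

theorem block {l p x : ℕ} (hp : 2 ^ l ≤ p) (hx : x % 2 = 1) (hb : 3 * 5 ^ 2 ^ l ≤ x) :
    ∃ x', 2 ^ (l + 2) * x' ≤ x ∧
      ∀ k, Fam k (2 ^ (p + (l + 2)) * x') → Fam (k + 4) (2 ^ p * x) := by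
  have h5 : 5 ≤ 5 ^ 2 ^ l := by
    calc 5 = 5 ^ 1 := rfl
      _ ≤ 5 ^ 2 ^ l := Nat.pow_le_pow_right (by norm_num) Nat.one_le_two_pow
  have key : ∀ y, y % 4 = 1 → 5 ^ 2 ^ l ≤ y → ∃ b ≤ p, ∃ z, y = 5 ^ b + 2 ^ (l + 2) * z := by
    intro y hy hle
    obtain ⟨b, hb1, hb2⟩ := exists_five l y hy
    refine ⟨b, (hb1.le).trans hp, (y - 5 ^ b) / 2 ^ (l + 2), ?_⟩
    have h1 : 5 ^ b ≤ y := (Nat.pow_le_pow_right (by norm_num) hb1.le).trans hle
    have h2 : 2 ^ (l + 2) ∣ y - 5 ^ b := (Nat.modEq_iff_dvd' h1).1 hb2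
    rw [Nat.mul_div_cancel' h2]
    omega
  have h4 : x % 4 = 1 ∨ x % 4 = 3 := by omega
  rcases h4 with h4 | h4
  · obtain ⟨b, hbp, z, hz⟩ := key x h4 (by omega)
    refine ⟨z, (Nat.le_add_left _ _).trans_eq hz.symm, fun k hk => ?_⟩
    have e : 2 ^ (p + (l + 2)) * z = 2 ^ p * (2 ^ (l + 2) * z) := by ring
    rw [e] at hk
    have := hk.term 0 b hbp
    rw [pow_zero, one_mul, ← hz] at this
    exact this.mono (by omega)
  · obtain ⟨b1, hb1, y, hy1, hy2⟩ : ∃ b1 ≤ 1, ∃ y, y % 4 = 1 ∧ x = 5 ^ b1 + 2 * y := by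
      by_cases h8 : x % 8 = 3
      · exact ⟨0, by norm_num, (x - 1) / 2, by omega, by rw [pow_zero]; omega⟩
      · exact ⟨1, le_rfl, (x - 5) / 2, by omega, by rw [pow_one]; omega⟩
    have h51 : 5 ^ b1 ≤ 5 := by
      calc 5 ^ b1 ≤ 5 ^ 1 := Nat.pow_le_pow_right (by norm_num) hb1
        _ = 5 := rfl
    obtain ⟨b2, hb2, z, hz⟩ := key y hy1 (by omega)
    refine ⟨2 * z, ?_, fun k hk => ?_⟩
    · have e : 2 ^ (l + 2) * (2 * z) = 2 * (2 ^ (l + 2) * z) := by ring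
      have h6 : 2 ^ (l + 2) * z ≤ y := (Nat.le_add_left _ _).trans_eq hz.symm
      rw [e, hy2]
      exact (Nat.mul_le_mul_left 2 h6).trans (Nat.le_add_left _ _)
    · have e : 2 ^ (p + (l + 2)) * (2 * z) = 2 ^ p * (2 * (2 ^ (l + 2) * z)) := by ring
      rw [e] at hk
      have h1 := (hk.term 1 b2 hb2).term 0 b1 (hb1.trans (Nat.one_le_two_pow.trans hp))
      have e2 : 2 ^ 0 * 5 ^ b1 + (2 ^ 1 * 5 ^ b2 + 2 * (2 ^ (l + 2) * z)) = x := by
        rw [hy2, hz]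
        ring
      rw [e2] at h1
      exact h1

theorem fam_main {l K0 : ℕ} (h0 : 3 * 5 ^ 2 ^ l ≤ 2 ^ K0) (hl : l + 2 ≤ K0) :
    ∀ K p x, 2 ^ l ≤ p → x < 2 ^ K → Fam (2 * K0 + 4 * (K / (l + 2))) (2 ^ p * x) := by
  intro K
  induction K using Nat.strong_induction_on with
  | _ K ih =>
    intro p x hp hx
    by_cases hx0 : x < 2 ^ K0
    · exact (fam_bits K0 p x hx0).mono (by omega)
    · have hx0' : 2 ^ K0 ≤ x := by omega
      have hK : K0 < K := by
        by_contra hcon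
        have := Nat.pow_le_pow_right (n := 2) (by norm_num) (not_lt.1 hcon)
        omega
      rcases Nat.mod_two_eq_zero_or_one x with h2 | h2
      · have h1 : x / 2 < 2 ^ (K - 1) := by
          have : 2 ^ K = 2 * 2 ^ (K - 1) := by
            rw [← pow_succ']
            congr 1
            omega
          omega
        have h3 := ih (K - 1) (by omega) (p + 1) (x / 2) (by omega) h1
        have e : 2 ^ (p + 1) * (x / 2) = 2 ^ p * x := by
          rw [pow_succ, mul_assoc]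
          congr 1
          omega
        rw [e] at h3
        refine h3.mono ?_
        have : (K - 1) / (l + 2) ≤ K / (l + 2) := Nat.div_le_div_right (by omega)
        omega
      · obtain ⟨x', h3, h4⟩ := block hp h2 (h0.trans hx0')
        have h5 : x' < 2 ^ (K - (l + 2)) := by
          have e : 2 ^ K = 2 ^ (l + 2) * 2 ^ (K - (l + 2)) := by
            rw [← pow_add]
            congr 1
            omega
          have h6 : 2 ^ (l + 2) * x' < 2 ^ (l + 2) * 2 ^ (K - (l + 2)) := by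
            rw [← e]
            omega
          exact lt_of_mul_lt_mul_left h6 (Nat.zero_le _)
        have h7 := h4 _ (ih (K - (l + 2)) (by omega) (p + (l + 2)) x' (by omega) h5)
        refine h7.mono ?_
        have : K / (l + 2) = (K - (l + 2)) / (l + 2) + 1 := by
          conv_lhs => rw [show K = K - (l + 2) + (l + 2) by omega]
          rw [Nat.add_div_right _ (by omega)]
        omega

theorem three_five (m : ℕ) : 3 * 5 ^ m ≤ 2 ^ (3 * m + 2) := by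
  rw [pow_add, pow_mul]
  have : 5 ^ m ≤ (2 ^ 3) ^ m := Nat.pow_le_pow_left (by norm_num) m
  omega

theorem lt_two_pow_aux (l : ℕ) : l + 2 ≤ 3 * 2 ^ l + 2 := by
  have : l < 2 ^ l := Nat.lt_two_pow_self
  omega

theorem fam_few (l K N : ℕ) (hN : N < 2 ^ K) : Fam (8 * 2 ^ l + 4 + 4 * (K / (l + 2))) N := by
  have h1 := fam_main (three_five (2 ^ l)) (lt_two_pow_aux l) K (0 + 2 ^ l) (N / 2 ^ 2 ^ l) (by omega)
    ((Nat.div_le_self _ _).trans_lt hN)
  have h2 := Fam.low (2 ^ l) h1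
  rw [pow_zero, one_mul] at h2
  exact h2.mono (by omega)

theorem hasCore_few (l K N t : ℕ) (hN : N < 2 ^ K) (ht : 16 * (K / (l + 2)) + 32 * 2 ^ l + 16 ≤ t) :
    HasCore (2 ^ t * (2 * N + 1)) := by
  obtain ⟨r, hr, hf⟩ := fam_few l K N hN
  have h4 : 4 * r ≤ t := by omega
  have h1 := (hasCore_of_fam hf).pow (t - 4 * r)
  have h2 : 2 ^ (t - 4 * r) * (16 ^ r * (2 * N + 1)) = 2 ^ t * (2 * N + 1) := by
    rw [show (16 : ℕ) = 2 ^ 4 by norm_num, ← pow_mul, ← mul_assoc, ← pow_add, Nat.sub_add_cancel h4]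
  rwa [h2] at h1

/-- the bound for all positive integers -/
theorem hasCore_all (l m t : ℕ) (hm : 0 < m)
    (ht : 16 * (Nat.log 2 m / (l + 2)) + 32 * 2 ^ l + 16 ≤ t) : HasCore (2 ^ t * m) := by
  obtain ⟨a, n, hn, rfl⟩ : ∃ a n : ℕ, n % 2 = 1 ∧ m = 2 ^ a * n := by
    obtain ⟨a, n, h1, h2⟩ := Nat.exists_eq_two_pow_mul_odd hm.ne'
    exact ⟨a, n, Nat.odd_iff.1 h1, h2⟩
  obtain ⟨N, rfl⟩ : ∃ N, n = 2 * N + 1 := ⟨n / 2, by omega⟩
  have hlt : 2 ^ a * (2 * N + 1) < 2 ^ (Nat.log 2 (2 ^ a * (2 * N + 1)) + 1) :=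
    Nat.lt_pow_succ_log_self (by norm_num) _
  have h1 : 2 * N + 1 ≤ 2 ^ a * (2 * N + 1) := Nat.le_mul_of_pos_left _ (by positivity)
  have h2 : N < 2 ^ Nat.log 2 (2 ^ a * (2 * N + 1)) := by
    rw [pow_succ] at hlt
    omega
  have h3 := hasCore_few l _ N (t + a) h2 (by omega)
  rw [pow_add, mul_assoc] at h3
  exact h3

end Pool.Agent.MP_d4e25a_co
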