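import Pool.Agent.Lib.MP_d4e25a_co.Circ

/-! Golay pairs and families of circulants. -/

namespace Pool.Agent.MP_d4e25a_co

open Matrix Polynomial

set_option linter.unusedSectionVars false

/-- Half sum and half difference of a Golay pair of length `L`. -/
structure IsG (A B : ℤ[X]) (L : ℕ) : Prop where
  cover : ∀ i < L, ((A.coeff i = 1 ∨ A.coeff i = -1) ∧ B.coeff i = 0) ∨
    (A.coeff i = 0 ∧ (B.coeff i = 1 ∨ B.coeff i = -1))
  zero : ∀ i, L ≤ i → A.coeff i = 0 ∧ B.coeff i = 0
  sum : ∀ (R : Type) [Ring R] (T T' : R), T * T' = 1 → T' * T = 1 →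
    aeval T A * aeval T' A + aeval T B * aeval T' B = (L : R)

/-- A family of polynomials with disjoint `±1` coefficients which cover `0, …, m - 1` and with
`∑ p_a(T) p_a(1/T) = m`. -/
structure IsTFam {ι : Type} [Fintype ι] (p : ι → ℤ[X]) (m : ℕ) : Prop where
  cover : ∀ i < m, ∃ a, ((p a).coeff i = 1 ∨ (p a).coeff i = -1) ∧ ∀ b, b ≠ a → (p b).coeff i = 0
  zero : ∀ i, m ≤ i → ∀ a, (p a).coeff i = 0
  sum : ∀ (R : Type) [Ring R] (T T' : R), T * T' = 1 → T' * T = 1 →
    ∑ a, aeval T (p a) * aeval T' (p a) = (m : R)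

theorem comm_aeval {R : Type} [Ring R] {T T' : R} (h : Commute T T') (p q : ℤ[X]) :
    Commute (aeval T p) (aeval T' q) := by
  have h1 : ∀ q : ℤ[X], Commute T (aeval T' q) := by
    intro q
    induction q using Polynomial.induction_on' with
    | add a b ha hb => rw [map_add]; exact ha.add_right hb
    | monomial n a =>
      rw [aeval_monomial]
      exact Commute.mul_right (Algebra.commutes a T).symm (h.pow_right n)
  induction p using Polynomial.induction_on' with
  | add a b ha hb => rw [map_add]; exact ha.add_left hb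
  | monomial n a =>
    rw [aeval_monomial]
    exact Commute.mul_left (Algebra.commutes a _) ((h1 q).pow_left n)

theorem shift_mul {R : Type} [Ring R] {T T' : R} (h : T * T' = 1) (h' : T' * T = 1) (k : ℕ)
    (p : ℤ[X]) : aeval T (X ^ k * p) * aeval T' (X ^ k * p) = aeval T p * aeval T' p := by
  have hc : Commute T T' := by rw [Commute, SemiconjBy, h, h']
  have h2 : T ^ k * T' ^ k = 1 := by rw [← hc.mul_pow, h, one_pow]
  rw [mul_comm (X ^ k) p]
  simp only [map_mul, map_pow, aeval_X]
  have h3 : Commute (T ^ k) (aeval T' p) := by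
    have := comm_aeval hc (X ^ k) p
    simpa using this
  have h4 : Commute (aeval T' p) (T' ^ k) := by
    have := comm_aeval (Commute.refl T') p (X ^ k)
    simpa using this
  calc aeval T p * T ^ k * (aeval T' p * T' ^ k) = aeval T p * (T ^ k * aeval T' p) * T' ^ k := by
        noncomm_ring
    _ = aeval T p * (aeval T' p * T ^ k) * T' ^ k := by rw [h3.eq]
    _ = aeval T p * aeval T' p * (T ^ k * T' ^ k) := by noncomm_ring
    _ = _ := by rw [h2, mul_one]

theorem isG_one : IsG 1 0 1 := by
  refine ⟨?_, ?_, ?_⟩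
  · intro i hi
    have : i = 0 := by omega
    subst this
    left
    simp
  · intro i hi
    rw [coeff_one, if_neg (by omega), coeff_zero]
    exact ⟨rfl, rfl⟩
  · intro R _ T T' _ _
    simp

theorem IsG.double {A B : ℤ[X]} {L : ℕ} (h : IsG A B L) : IsG (A + B) (X ^ L * (A - B)) (2 * L) := by
  refine ⟨?_, ?_, ?_⟩
  · intro i hi
    rw [coeff_X_pow_mul', coeff_add]
    by_cases hiL : i < L
    · left
      rw [if_neg (by omega)]
      refine ⟨?_, rfl⟩
      rcases h.cover i hiL with ⟨h1, h2⟩ | ⟨h1, h2⟩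
      · rw [h2, add_zero]; exact h1
      · rw [h1, zero_add]; exact h2
    · right
      rw [if_pos (by omega), coeff_sub, (h.zero i (by omega)).1, (h.zero i (by omega)).2]
      refine ⟨rfl, ?_⟩
      rcases h.cover (i - L) (by omega) with ⟨h1, h2⟩ | ⟨h1, h2⟩
      · rw [h2, sub_zero]; exact h1
      · rw [h1, zero_sub]
        rcases h2 with h2 | h2 <;> rw [h2]
        · right; rfl
        · left; rfl
  · intro i hi
    rw [coeff_X_pow_mul', coeff_add, (h.zero i (by omega)).1, (h.zero i (by omega)).2, if_pos (by omega),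
      coeff_sub, (h.zero (i - L) (by omega)).1, (h.zero (i - L) (by omega)).2]
    exact ⟨rfl, rfl⟩
  · intro R _ T T' hT hT'
    rw [shift_mul hT hT']
    have := h.sum R T T' hT hT'
    simp only [map_add, map_sub]
    calc (aeval T A + aeval T B) * (aeval T' A + aeval T' B) +
          (aeval T A - aeval T B) * (aeval T' A - aeval T' B) =
        2 * (aeval T A * aeval T' A + aeval T B * aeval T' B) := by noncomm_ring
      _ = _ := by rw [this]; push_cast; rfl

theorem exists_isG (e : ℕ) : ∃ A B, IsG A B (2 ^ e) := by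
  induction e with
  | zero => exact ⟨1, 0, by simpa using isG_one⟩
  | succ e ih =>
    obtain ⟨A, B, h⟩ := ih
    exact ⟨_, _, by rw [pow_succ, mul_comm]; exact h.double⟩

theorem isTFam_empty : IsTFam (fun _ : Empty => (0 : ℤ[X])) 0 := by
  refine ⟨?_, ?_, ?_⟩
  · intro i hi; omega
  · intro i _ a; exact a.elim
  · intro R _ T T' _ _; simp

theorem IsTFam.add {ι : Type} [Fintype ι] {p : ι → ℤ[X]} {m : ℕ} (h : IsTFam p m) {A B : ℤ[X]} {L : ℕ}
    (hG : IsG A B L) :
    IsTFam (fun a : ι ⊕ Bool => Sum.elim p (fun b => X ^ m * (if b then A else B)) a) (m + L) := by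
  refine ⟨?_, ?_, ?_⟩
  · intro i hi
    by_cases him : i < m
    · obtain ⟨a, h1, h2⟩ := h.cover i him
      refine ⟨Sum.inl a, by simpa using h1, ?_⟩
      rintro (b | b) hb
      · simpa using h2 b (fun h => hb (by rw [h]))
      · simp only [Sum.elim_inr]
        rw [coeff_X_pow_mul', if_neg (by omega)]
    · rcases hG.cover (i - m) (by omega) with ⟨h1, h2⟩ | ⟨h1, h2⟩
      · refine ⟨Sum.inr true, ?_, ?_⟩
        · simp only [Sum.elim_inr]
          rw [coeff_X_pow_mul', if_pos (by omega)]
          simpa using h1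
        · rintro (b | b) hb
          · simpa using h.zero i (by omega) b
          · cases b with
            | true => exact absurd rfl hb
            | false =>
              simp only [Sum.elim_inr]
              rw [coeff_X_pow_mul', if_pos (by omega), if_neg (by simp)]
              exact h2
      · refine ⟨Sum.inr false, ?_, ?_⟩
        · simp only [Sum.elim_inr]
          rw [coeff_X_pow_mul', if_pos (by omega), if_neg (by simp)]
          exact h2
        · rintro (b | b) hb
          · simpa using h.zero i (by omega) b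
          · cases b with
            | false => exact absurd rfl hb
            | true =>
              simp only [Sum.elim_inr]
              rw [coeff_X_pow_mul', if_pos (by omega)]
              simpa using h1
  · rintro i hi (a | a)
    · simpa using h.zero i (by omega) a
    · simp only [Sum.elim_inr]
      rw [coeff_X_pow_mul', if_pos (by omega)]
      cases a with
      | true => simpa using (hG.zero _ (by omega)).1
      | false => rw [if_neg (by simp)]; exact (hG.zero _ (by omega)).2
  · intro R _ T T' hT hT'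
    rw [Fintype.sum_sum_type]
    simp only [Sum.elim_inl, Sum.elim_inr, Fintype.sum_bool, if_true, Bool.false_eq_true, if_false]
    rw [h.sum R T T' hT hT', shift_mul hT hT', shift_mul hT hT', hG.sum R T T' hT hT']
    push_cast
    rfl

/-- The shift of `ZMod n`. -/
def sh (n : ℕ) [NeZero n] : Matrix (ZMod n) (ZMod n) ℤ := fun g h => if h = g + 1 then 1 else 0

theorem sh_pow (n : ℕ) [NeZero n] (i : ℕ) (g h : ZMod n) :
    (sh n ^ i) g h = if h = g + (i : ZMod n) then 1 else 0 := by
  induction i generalizing h with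
  | zero => simp [Matrix.one_apply, eq_comm]
  | succ i ih =>
    rw [pow_succ, Matrix.mul_apply]
    simp only [ih, sh]
    rw [Finset.sum_eq_single (g + (i : ZMod n))]
    · simp [add_assoc]
    · intro b _ hb
      rw [if_neg hb, zero_mul]
    · intro h; exact absurd (Finset.mem_univ _) h

theorem sh_mul_transpose (n : ℕ) [NeZero n] : sh n * (sh n)ᵀ = 1 := by
  ext g h
  rw [Matrix.mul_apply, Matrix.one_apply]
  simp only [sh, Matrix.transpose_apply]
  rw [Finset.sum_eq_single (g + 1)]
  · simp
  · intro b _ hb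
    rw [if_neg hb, zero_mul]
  · intro h; exact absurd (Finset.mem_univ _) h

theorem transpose_mul_sh (n : ℕ) [NeZero n] : (sh n)ᵀ * sh n = 1 := by
  ext g h
  rw [Matrix.mul_apply, Matrix.one_apply]
  simp only [sh, Matrix.transpose_apply]
  rw [Finset.sum_eq_single (g - 1)]
  · simp [eq_comm]
  · intro b _ hb
    rw [if_neg, zero_mul]
    intro h; apply hb; rw [h]; ring
  · intro h; exact absurd (Finset.mem_univ _) h

theorem aeval_sh (n : ℕ) [NeZero n] (q : ℤ[X]) (hq : ∀ i, n ≤ i → q.coeff i = 0) (g h : ZMod n) :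
    (aeval (sh n) q) g h = q.coeff (h - g).val := by
  have hn : 0 < n := Nat.pos_of_ne_zero (NeZero.ne n)
  have hdeg : q.natDegree < n := by
    by_contra hcon
    push Not at hcon
    have h1 := hq q.natDegree hcon
    have h2 : q = 0 := by
      rwa [coeff_natDegree, leadingCoeff_eq_zero] at h1
    rw [h2, natDegree_zero] at hcon
    omega
  rw [aeval_eq_sum_range' hdeg, Matrix.sum_apply]
  simp only [Matrix.smul_apply, sh_pow, smul_eq_mul]
  rw [Finset.sum_eq_single (h - g).val]
  · rw [ZMod.natCast_zmod_val]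
    simp
  · intro b hb hne
    rw [if_neg, mul_zero]
    intro h1
    apply hne
    rw [h1, add_sub_cancel_left, ZMod.val_natCast, Nat.mod_eq_of_lt (Finset.mem_range.1 hb)]
  · intro h1
    exact absurd (Finset.mem_range.2 (ZMod.val_lt _)) h1

theorem transpose_aeval {G : Type} [Fintype G] [DecidableEq G] (T : Matrix G G ℤ) (p : ℤ[X]) :
    (aeval T p)ᵀ = aeval Tᵀ p := by
  induction p using Polynomial.induction_on' with
  | add a b ha hb => rw [map_add, map_add, Matrix.transpose_add, ha, hb]
  | monomial n a =>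
    rw [aeval_monomial, aeval_monomial, Matrix.transpose_mul, Matrix.transpose_pow,
      Matrix.algebraMap_eq_diagonal, Matrix.diagonal_transpose]
    rw [← Matrix.algebraMap_eq_diagonal]
    exact (Algebra.commutes a _).symm

theorem IsTFam.circ {ι : Type} [Fintype ι] {p : ι → ℤ[X]} {m : ℕ} (h : IsTFam p m) :
    IsCirc (fun a => aeval (sh (2 * m + 1)) (X * p a)) m := by
  have hz : ∀ a i, 2 * m + 1 ≤ i → (X * p a).coeff i = 0 := by
    intro a i hi
    obtain ⟨j, rfl⟩ : ∃ j, i = j + 1 := ⟨i - 1, by omega⟩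
    rw [coeff_X_mul]
    exact h.zero j (by omega) a
  have hc : Commute (sh (2 * m + 1)) (sh (2 * m + 1))ᵀ := by
    rw [Commute, SemiconjBy, sh_mul_transpose, transpose_mul_sh]
  refine ⟨?_, ?_, ?_, ?_, ?_, ?_⟩
  · intro a b
    exact comm_aeval (Commute.refl _) _ _
  · intro a b
    rw [transpose_aeval]
    exact comm_aeval hc _ _
  · simp only [transpose_aeval]
    have h1 : ∀ a, aeval (sh (2 * m + 1)) (X * p a) * aeval (sh (2 * m + 1))ᵀ (X * p a) =
        aeval (sh (2 * m + 1)) (p a) * aeval (sh (2 * m + 1))ᵀ (p a) := by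
      intro a
      have := shift_mul (sh_mul_transpose (2 * m + 1)) (transpose_mul_sh (2 * m + 1)) 1 (p a)
      rwa [pow_one] at this
    simp only [h1]
    have h2 : ∑ a, aeval (sh (2 * m + 1)) (p a) * aeval (sh (2 * m + 1))ᵀ (p a) =
        (m : Matrix (ZMod (2 * m + 1)) (ZMod (2 * m + 1)) ℤ) :=
      h.sum (Matrix (ZMod (2 * m + 1)) (ZMod (2 * m + 1)) ℤ) _ _ (sh_mul_transpose _)
        (transpose_mul_sh _)
    rw [h2]
    ext i j
    rw [Matrix.smul_apply, Matrix.natCast_apply, Matrix.one_apply]
    split_ifs <;> simp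
  · exact ZMod.card _
  · intro a g
    change (aeval (sh (2 * m + 1)) (X * p a) : Matrix (ZMod (2 * m + 1)) (ZMod (2 * m + 1)) ℤ) g g = 0
    rw [aeval_sh _ _ (hz a), sub_self, ZMod.val_zero, mul_coeff_zero, coeff_X_zero, zero_mul]
  · have key : ∀ g h' : ZMod (2 * m + 1), g ≠ h' → (h' - g).val ≤ m →
        ∃ a, (∀ b, b ≠ a → aeval (sh (2 * m + 1)) (X * p b) g h' = 0 ∧
          aeval (sh (2 * m + 1)) (X * p b) h' g = 0) ∧
        (aeval (sh (2 * m + 1)) (X * p a) g h' = 1 ∨ aeval (sh (2 * m + 1)) (X * p a) g h' = -1) ∧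
          aeval (sh (2 * m + 1)) (X * p a) h' g = 0 := by
      intro g h' hne hle
      have hne' : h' - g ≠ 0 := fun h => hne (sub_eq_zero.1 h).symm
      have hpos : 0 < (h' - g).val := by
        rcases Nat.eq_zero_or_pos (h' - g).val with h0 | h0
        · exact absurd ((ZMod.val_eq_zero _).1 h0) hne'
        · exact h0
      have hneg : (g - h').val = 2 * m + 1 - (h' - g).val := by
        have : g - h' = -(h' - g) := by ring
        rw [this, ZMod.neg_val, if_neg hne']
      obtain ⟨j, hj⟩ : ∃ j, (h' - g).val = j + 1 := ⟨(h' - g).val - 1, by omega⟩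
      obtain ⟨k, hk⟩ : ∃ k, (g - h').val = k + 1 := ⟨(g - h').val - 1, by omega⟩
      obtain ⟨a, ha, hb⟩ := h.cover j (by omega)
      refine ⟨a, ?_, ?_, ?_⟩
      · intro b hba
        rw [aeval_sh _ _ (hz b), aeval_sh _ _ (hz b), hj, hk, coeff_X_mul, coeff_X_mul]
        exact ⟨hb b hba, h.zero k (by omega) b⟩
      · rw [aeval_sh _ _ (hz a), hj, coeff_X_mul]
        exact ha
      · rw [aeval_sh _ _ (hz a), hk, coeff_X_mul]
        exact h.zero k (by omega) a
    intro g h' hne
    by_cases hle : (h' - g).val ≤ m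
    · obtain ⟨a, h1, h2, h3⟩ := key g h' hne hle
      exact ⟨a, h1, Or.inl ⟨h2, h3⟩⟩
    · have hne' : h' - g ≠ 0 := fun h => hne (sub_eq_zero.1 h).symm
      have hneg : (g - h').val = 2 * m + 1 - (h' - g).val := by
        have : g - h' = -(h' - g) := by ring
        rw [this, ZMod.neg_val, if_neg hne']
      have hlt : (h' - g).val < 2 * m + 1 := ZMod.val_lt _
      obtain ⟨a, h1, h2, h3⟩ := key h' g (Ne.symm hne) (by omega)
      exact ⟨a, fun b hb => ⟨(h1 b hb).2, (h1 b hb).1⟩, Or.inr ⟨h2, h3⟩⟩

end Pool.Agent.MP_d4e25a_co
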