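import Pool.Agent.Lib.MP_d4e25a_co.Few

/-! The exponent `126 log m / log log m`. -/

set_option autoImplicit false

namespace Pool.Agent.MP_d4e25a_co

/-- skew cores of order `2 ^ t * m` for `t ≥ 126 log m / log log m` -/
theorem hasCore_sublog (m : ℕ) (hm : 3 ≤ m) (t : ℕ)
    (ht : 126 * Real.log m / Real.log (Real.log m) ≤ t) : HasCore (2 ^ t * m) := by
  obtain ⟨K, hK⟩ : ∃ K, K = Nat.log 2 m := ⟨_, rfl⟩
  obtain ⟨l, hl⟩ : ∃ l, l = Nat.log 2 K / 2 := ⟨_, rfl⟩
  obtain ⟨y, hy⟩ : ∃ y, y = Real.log m := ⟨_, rfl⟩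
  rw [← hy] at ht
  have hm0 : (0 : ℝ) < m := by
    have : 0 < m := by omega
    exact_mod_cast this
  have hl2 := Real.log_two_gt_d9
  have hl2' := Real.log_two_lt_d9
  have hKm : 2 ^ K ≤ m := by rw [hK]; exact Nat.pow_log_le_self 2 (by omega)
  have hmK : m < 2 ^ (K + 1) := by rw [hK]; exact Nat.lt_pow_succ_log_self (by norm_num) _
  have hK1 : 1 ≤ K := by
    rw [hK]
    exact Nat.le_log_of_pow_le (by norm_num) (by omega)
  have hKy : (K : ℝ) * Real.log 2 ≤ y := by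
    have h1 : ((2 : ℝ) ^ K) ≤ m := by exact_mod_cast hKm
    have h2 := Real.log_le_log (by positivity) h1
    rwa [Real.log_pow, ← hy] at h2
  have hyK : y ≤ ((K : ℝ) + 1) * Real.log 2 := by
    have h1 : (m : ℝ) ≤ (2 : ℝ) ^ (K + 1) := by exact_mod_cast hmK.le
    have h2 := Real.log_le_log hm0 h1
    rw [Real.log_pow, ← hy] at h2
    push_cast at h2
    exact h2
  have hy1 : 1 < y := by
    have h3 : Real.log 3 ≤ y := by
      rw [hy]
      exact Real.log_le_log (by norm_num) (by exact_mod_cast hm)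
    have h4 : (1 : ℝ) < Real.log 3 := by
      rw [Real.lt_log_iff_exp_lt (by norm_num)]
      have := Real.exp_one_lt_d9
      linarith
    linarith
  have hly : 0 < Real.log y := Real.log_pos hy1
  -- the size of `l`
  have h2l : (2 ^ l) ^ 2 ≤ K := by
    rw [← pow_mul]
    calc 2 ^ (l * 2) ≤ 2 ^ Nat.log 2 K := Nat.pow_le_pow_right (by norm_num) (by omega)
      _ ≤ K := Nat.pow_log_le_self 2 (by omega)
  have hKl : K + 1 ≤ 2 ^ (2 * l + 2) := by
    calc K + 1 ≤ 2 ^ (Nat.log 2 K + 1) := Nat.lt_pow_succ_log_self (by norm_num) _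
      _ ≤ 2 ^ (2 * l + 2) := Nat.pow_le_pow_right (by norm_num) (by omega)
  have hlog : Real.log y ≤ 2 * ((l : ℝ) + 2) * Real.log 2 := by
    have h1 : y ≤ (2 : ℝ) ^ (2 * l + 2) := by
      have h2 : ((K : ℝ) + 1) ≤ (2 : ℝ) ^ (2 * l + 2) := by exact_mod_cast hKl
      have h3 : ((K : ℝ) + 1) * Real.log 2 ≤ ((K : ℝ) + 1) * 1 := by
        apply mul_le_mul_of_nonneg_left (by linarith) (by positivity)
      linarith
    have h2 := Real.log_le_log (by linarith) h1
    rw [Real.log_pow] at h2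
    push_cast at h2
    nlinarith
  obtain ⟨Q, hQ⟩ : ∃ Q, Q = y / Real.log y := ⟨_, rfl⟩
  have hQ1 : 1 ≤ Q := by
    rw [hQ, le_div_iff₀ hly]
    have := Real.log_le_sub_one_of_pos (show 0 < y by linarith)
    linarith
  have hA : ((K / (l + 2) : ℕ) : ℝ) ≤ 2 * Q := by
    have h1 : ((K / (l + 2) : ℕ) : ℝ) ≤ (K : ℝ) / ((l + 2 : ℕ) : ℝ) := Nat.cast_div_le
    refine h1.trans ?_
    have h2 : (0 : ℝ) < ((l + 2 : ℕ) : ℝ) := by positivity
    rw [div_le_iff₀ h2, hQ, mul_div_assoc', div_mul_eq_mul_div, le_div_iff₀ hly]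
    push_cast
    have h3 : (K : ℝ) * Real.log y ≤ K * (2 * ((l : ℝ) + 2) * Real.log 2) :=
      mul_le_mul_of_nonneg_left hlog (by positivity)
    have h4 : (K : ℝ) * Real.log 2 * (2 * ((l : ℝ) + 2)) ≤ y * (2 * ((l : ℝ) + 2)) :=
      mul_le_mul_of_nonneg_right hKy (by positivity)
    linarith
  have hB : ((2 : ℝ) ^ l) ≤ 2.42 * Q := by
    obtain ⟨s, hs⟩ : ∃ s, s = Real.sqrt y := ⟨_, rfl⟩
    have hs0 : 0 < s := by rw [hs]; exact Real.sqrt_pos.2 (by linarith)
    have hss : s * s = y := by rw [hs]; exact Real.mul_self_sqrt (by linarith)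
    have h1 : ((2 : ℝ) ^ l) ^ 2 ≤ K := by exact_mod_cast h2l
    have h2 : ((2 : ℝ) ^ l) ≤ 1.21 * s := by
      have h3 : (K : ℝ) * 0.6931471803 ≤ K * Real.log 2 :=
        mul_le_mul_of_nonneg_left hl2.le (by positivity)
      have h4 : ((2 : ℝ) ^ l) ^ 2 ≤ (1.21 * s) ^ 2 := by nlinarith
      exact le_of_sq_le_sq h4 (by positivity)
    have h5 : Real.log y ≤ 2 * s := by
      have h6 : Real.log y = 2 * Real.log s := by
        rw [← hss, Real.log_mul hs0.ne' hs0.ne']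
        ring
      have h7 := Real.log_le_sub_one_of_pos hs0
      linarith
    have h8 : s ≤ 2 * Q := by
      rw [hQ, mul_div_assoc', le_div_iff₀ hly]
      nlinarith
    linarith
  have hfin : 16 * (K / (l + 2)) + 32 * 2 ^ l + 16 ≤ t := by
    have h1 : 126 * y / Real.log y = 126 * Q := by rw [hQ, mul_div_assoc]
    rw [h1] at ht
    have h2 : (16 * ((K / (l + 2) : ℕ) : ℝ) + 32 * (2 : ℝ) ^ l + 16) ≤ t := by linarith
    exact_mod_cast h2
  rw [hK] at hfin
  exact hasCore_all l m t (by omega) hfin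

end Pool.Agent.MP_d4e25a_co
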