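import Pool.Agent.Lib.MP_d4e25a_co.Exist

/-! Golay pairs of length `2 ^ a * 10 ^ b`. -/

set_option autoImplicit false

namespace Pool.Agent.MP_d4e25a_co

open Polynomial

theorem hom_aeval_int {S R : Type} [Ring S] [Ring R] (f : S →+* R) (x : S) (P : ℤ[X]) :
    f (aeval x P) = aeval (f x) P := by
  rw [aeval_def, aeval_def, hom_eval₂]
  congr 1
  exact RingHom.ext_int _ _

/-- the identity of a Golay pair needs to be checked in commutative rings only -/
theorem sum_of_comm {A B : ℤ[X]} {L : ℕ}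
    (h : ∀ (R : Type) [CommRing R] (T T' : R), T * T' = 1 →
      aeval T A * aeval T' A + aeval T B * aeval T' B = (L : R))
    (R : Type) [Ring R] (T T' : R) (h1 : T * T' = 1) (h2 : T' * T = 1) :
    aeval T A * aeval T' A + aeval T B * aeval T' B = (L : R) := by
  let s : Set R := {T, T'}
  have hc : ∀ a ∈ s, ∀ b ∈ s, a * b = b * a := by
    rintro a (rfl | rfl) b (rfl | rfl)
    · rfl
    · rw [h1, h2]
    · rw [h1, h2]
    · rfl
  let : CommRing (Algebra.adjoin ℤ s) := Algebra.adjoinCommRingOfComm ℤ hc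
  let f : Algebra.adjoin ℤ s →+* R := (Algebra.adjoin ℤ s).val.toRingHom
  let t : Algebra.adjoin ℤ s := ⟨T, Algebra.subset_adjoin (by simp [s])⟩
  let t' : Algebra.adjoin ℤ s := ⟨T', Algebra.subset_adjoin (by simp [s])⟩
  have h3 := congrArg f (h _ t t' (Subtype.ext h1))
  rw [map_add, map_mul, map_mul, hom_aeval_int, hom_aeval_int, hom_aeval_int, hom_aeval_int,
    map_natCast] at h3
  exact h3

/-- half sum of the Golay pair of length ten -/
noncomputable def uT : ℤ[X] := 1 + X - X ^ 2 + X ^ 3 + X ^ 5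

/-- half difference of the Golay pair of length ten -/
noncomputable def vT : ℤ[X] := -X ^ 4 - X ^ 6 - X ^ 7 + X ^ 8 + X ^ 9

theorem uv_sum (R : Type) [CommRing R] (T S : R) (h : T * S = 1) :
    aeval T uT * aeval S uT + aeval T vT * aeval S vT = 10 := by
  unfold uT vT
  simp only [map_add, map_sub, map_neg, map_one, map_pow, aeval_X]
  linear_combination ((9)*T^0*S^0 + (-1)*T^0*S^1 + (1)*T^0*S^2 + (-1)*T^0*S^3 + (-1)*T^0*S^5 + (-1)*T^1*S^0 + (8)*T^1*S^1 + (-1)*T^1*S^4 + (-1)*T^1*S^5 + (-1)*T^1*S^6 + (1)*T^2*S^0 + (7)*T^2*S^2 + (1)*T^2*S^3 + (-1)*T^2*S^6 + (-1)*T^2*S^7 + (-1)*T^3*S^0 + (1)*T^3*S^2 + (6)*T^3*S^3 + (1)*T^3*S^4 + (-1)*T^3*S^5 + (-1)*T^3*S^7 + (-1)*T^3*S^8 + (-1)*T^4*S^1 + (1)*T^4*S^3 + (5)*T^4*S^4 + (1)*T^4*S^5 + (-2)*T^4*S^6 + (-1)*T^4*S^7 + (-1)*T^5*S^0 + (-1)*T^5*S^1 + (-1)*T^5*S^3 + (1)*T^5*S^4 + (4)*T^5*S^5 + (1)*T^5*S^6 + (-2)*T^5*S^7 + (-1)*T^5*S^8 + (-1)*T^6*S^1 + (-1)*T^6*S^2 + (-2)*T^6*S^4 + (1)*T^6*S^5 +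 (3)*T^6*S^6 + (-1)*T^6*S^8 + (-1)*T^7*S^2 + (-1)*T^7*S^3 + (-1)*T^7*S^4 + (-2)*T^7*S^5 + (2)*T^7*S^7 + (1)*T^7*S^8 + (-1)*T^8*S^3 + (-1)*T^8*S^5 + (-1)*T^8*S^6 + (1)*T^8*S^7 + (1)*T^8*S^8) * h

/-- reversed polynomial of length `L` -/
noncomputable def rv (L : ℕ) (P : ℤ[X]) : ℤ[X] := reflect (L - 1) P

theorem coeff_rv {L : ℕ} {P : ℤ[X]} (hP : ∀ i, L ≤ i → P.coeff i = 0) (i : ℕ) :
    (rv L P).coeff i = if i < L then P.coeff (L - 1 - i) else 0 := by
  unfold rv
  rw [coeff_reflect]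
  split_ifs with h
  · rw [revAt_le (by omega)]
  · by_cases h1 : i ≤ L - 1
    · have : L = 0 := by omega
      subst this
      exact hP _ (Nat.zero_le _)
    · rw [revAt_eq_self_of_lt (by omega)]
      exact hP i (by omega)

theorem natDegree_lt_of {L : ℕ} (hL : 0 < L) {P : ℤ[X]} (hP : ∀ i, L ≤ i → P.coeff i = 0) :
    P.natDegree ≤ L - 1 := by
  rw [natDegree_le_iff_coeff_eq_zero]
  intro i hi
  exact hP i (by omega)

theorem aeval_rv (R : Type) [CommRing R] (T S : R) (h : T * S = 1) {L : ℕ} (hL : 0 < L) {P : ℤ[X]}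
    (hP : ∀ i, L ≤ i → P.coeff i = 0) : aeval S (rv L P) = aeval T P * S ^ (L - 1) := by
  let : Invertible T := ⟨S, by rw [mul_comm]; exact h, h⟩
  have h1 := eval₂_reflect_mul_pow (algebraMap ℤ R) T (L - 1) P (natDegree_lt_of hL hP)
  have h2 : eval₂ (algebraMap ℤ R) S (rv L P) * T ^ (L - 1) = eval₂ (algebraMap ℤ R) T P := h1
  rw [aeval_def, aeval_def, ← h2, mul_assoc, ← mul_pow, h, one_pow, mul_one]

theorem coeff_mul_expand {L : ℕ} (hL : 0 < L) {P : ℤ[X]} (hP : ∀ i, L ≤ i → P.coeff i = 0)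
    (Q : ℤ[X]) (n : ℕ) : (P * expand ℤ L Q).coeff n = P.coeff (n % L) * Q.coeff (n / L) := by
  rw [coeff_mul, Finset.sum_eq_single (n % L, L * (n / L))]
  · rw [coeff_expand hL, if_pos (dvd_mul_right _ _), Nat.mul_div_cancel_left _ hL]
  · rintro ⟨i, j⟩ hij hne
    rw [Finset.HasAntidiagonal.mem_antidiagonal] at hij
    simp only at hij ⊢
    rw [coeff_expand hL]
    split_ifs with hd
    · obtain ⟨k, rfl⟩ := hd
      by_cases hi : i < L
      · exfalso
        apply hne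
        have h1 : n % L = i := by
          rw [← hij, Nat.add_mul_mod_self_left, Nat.mod_eq_of_lt hi]
        have h2 : n / L = k := by
          rw [← hij, Nat.add_mul_div_left _ _ hL, Nat.div_eq_of_lt hi, zero_add]
        rw [h1, h2]
      · rw [hP i (by omega), zero_mul]
    · rw [mul_zero]
  · intro h
    exact absurd (Finset.HasAntidiagonal.mem_antidiagonal.2 (Nat.mod_add_div n L)) h

theorem uT_coeff (q : ℕ) : uT.coeff q = if q = 0 then 1 else if q = 1 then 1 else if q = 2 then -1 else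
    if q = 3 then 1 else if q = 5 then 1 else 0 := by
  unfold uT
  simp only [coeff_add, coeff_sub, coeff_X_pow, coeff_one, coeff_X]
  split_ifs <;> first | rfl | omega

theorem vT_coeff (q : ℕ) : vT.coeff q = if q = 4 then -1 else if q = 6 then -1 else if q = 7 then -1 else
    if q = 8 then 1 else if q = 9 then 1 else 0 := by
  unfold vT
  simp only [coeff_add, coeff_sub, coeff_neg, coeff_X_pow]
  split_ifs <;> first | rfl | omega

theorem uv_cover (q : ℕ) (hq : q < 10) : ((uT.coeff q = 1 ∨ uT.coeff q = -1) ∧ vT.coeff q = 0) ∨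
    (uT.coeff q = 0 ∧ (vT.coeff q = 1 ∨ vT.coeff q = -1)) := by
  rw [uT_coeff, vT_coeff]
  interval_cases q <;> simp

theorem uv_zero (q : ℕ) (hq : 10 ≤ q) : uT.coeff q = 0 ∧ vT.coeff q = 0 := by
  rw [uT_coeff, vT_coeff]
  constructor
  · split_ifs <;> first | rfl | omega
  · split_ifs <;> first | rfl | omega

theorem IsG.ten {A B : ℤ[X]} {L : ℕ} (hL : 0 < L) (h : IsG A B L) :
    IsG (A * expand ℤ L uT - rv L B * expand ℤ L vT) (B * expand ℤ L uT + rv L A * expand ℤ L vT)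
      (10 * L) := by
  have hA : ∀ i, L ≤ i → A.coeff i = 0 := fun i hi => (h.zero i hi).1
  have hB : ∀ i, L ≤ i → B.coeff i = 0 := fun i hi => (h.zero i hi).2
  have hrA : ∀ i, L ≤ i → (rv L A).coeff i = 0 := by
    intro i hi
    rw [coeff_rv hA, if_neg (by omega)]
  have hrB : ∀ i, L ≤ i → (rv L B).coeff i = 0 := by
    intro i hi
    rw [coeff_rv hB, if_neg (by omega)]
  refine ⟨?_, ?_, ?_⟩
  · intro i hi
    rw [coeff_sub, coeff_add, coeff_mul_expand hL hA, coeff_mul_expand hL hB, coeff_mul_expand hL hrA,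
      coeff_mul_expand hL hrB]
    have hm : i % L < L := Nat.mod_lt _ hL
    have hq : i / L < 10 := by
      rw [Nat.div_lt_iff_lt_mul hL]
      exact hi
    rw [coeff_rv hA, coeff_rv hB, if_pos hm, if_pos hm]
    rcases uv_cover (i / L) hq with ⟨h1, h2⟩ | ⟨h1, h2⟩
    · rw [h2, mul_zero, mul_zero, sub_zero, add_zero]
      rcases h.cover (i % L) hm with ⟨h3, h4⟩ | ⟨h3, h4⟩
      · left
        rw [h4, zero_mul]
        refine ⟨?_, rfl⟩
        rcases h1 with h1 | h1 <;> rcases h3 with h3 | h3 <;> rw [h1, h3] <;> simp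
      · right
        rw [h3, zero_mul]
        refine ⟨rfl, ?_⟩
        rcases h1 with h1 | h1 <;> rcases h4 with h4 | h4 <;> rw [h1, h4] <;> simp
    · rw [h1, mul_zero, mul_zero, zero_sub, zero_add]
      rcases h.cover (L - 1 - i % L) (by omega) with ⟨h3, h4⟩ | ⟨h3, h4⟩
      · right
        rw [h4, zero_mul]
        refine ⟨neg_zero, ?_⟩
        rcases h2 with h2 | h2 <;> rcases h3 with h3 | h3 <;> rw [h2, h3] <;> simp
      · left
        rw [h3, zero_mul]
        refine ⟨?_, rfl⟩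
        rcases h2 with h2 | h2 <;> rcases h4 with h4 | h4 <;> rw [h2, h4] <;> simp
  · intro i hi
    rw [coeff_sub, coeff_add, coeff_mul_expand hL hA, coeff_mul_expand hL hB, coeff_mul_expand hL hrA,
      coeff_mul_expand hL hrB]
    have hq : 10 ≤ i / L := by
      rw [Nat.le_div_iff_mul_le hL]
      exact hi
    rw [(uv_zero _ hq).1, (uv_zero _ hq).2]
    simp
  · apply sum_of_comm
    intro R _ T S hT
    have hT' : S * T = 1 := by rw [mul_comm]; exact hT
    have e1 := h.sum R T S hT hT'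
    have e2 := uv_sum R (T ^ L) (S ^ L) (by rw [← mul_pow, hT, one_pow])
    have hTS : T ^ (L - 1) * S ^ (L - 1) = 1 := by rw [← mul_pow, hT, one_pow]
    simp only [map_add, map_sub, map_mul, expand_aeval]
    rw [aeval_rv R T S hT hL hA, aeval_rv R T S hT hL hB, aeval_rv R S T hT' hL hA,
      aeval_rv R S T hT' hL hB]
    push_cast
    linear_combination (10 : R) * e1 + (aeval T A * aeval S A + aeval T B * aeval S B) * e2 +
      (aeval (T ^ L) vT * aeval (S ^ L) vT * (aeval T A * aeval S A + aeval T B * aeval S B)) * hTS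

theorem exists_isG_ten (a b : ℕ) : ∃ A B, IsG A B (2 ^ a * 10 ^ b) := by
  induction b with
  | zero => simpa using exists_isG a
  | succ b ih =>
    obtain ⟨A, B, h⟩ := ih
    exact ⟨_, _, by
      rw [pow_succ, ← mul_assoc, mul_comm _ 10]
      exact h.ten (by positivity)⟩

end Pool.Agent.MP_d4e25a_co
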